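import Mathlib

/-! Definitions: smooth hypersurfaces and very free rational curves on them. -/

set_option autoImplicit false

namespace U199.SRC

open MvPolynomial
open scoped LaurentPolynomial

variable {K : Type*} [Field K]

/-- `F = 0` is a smooth hypersurface of projective `n`-space over the (algebraically closed) field
`K` (Jacobian criterion): at every point `x` of the hypersurface some partial derivative of `F`
does not vanish. -/
def IsSmooth {n : ℕ} (F : MvPolynomial (Fin (n + 1)) K) : Prop :=
  ∀ x : Fin (n + 1) → K, x ≠ 0 → eval x F = 0 → ∃ i, eval x (pderiv i F) ≠ 0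

/-- Restriction of a form `g(s, t)` to the chart `s = 1` of the projective line (coordinate `t`). -/
noncomputable def chart0 (g : MvPolynomial (Fin 2) K) : Polynomial K :=
  aeval ![1, Polynomial.X] g

/-- Restriction of a form `g(s, t)` to the chart `t = 1` of the projective line (coordinate `s`). -/
noncomputable def chart1 (g : MvPolynomial (Fin 2) K) : Polynomial K :=
  aeval ![Polynomial.X, 1] g

/-- `f = (f_0, ..., f_n)` is a very free rational curve of degree `e` on the smooth hypersurface
`X : F = 0`.

The first three conditions say that the `f_i` are forms of degree `e` in `(s, t)` without common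
zero and that `F(f_0, ..., f_n) = 0`, so that they define a morphism `f : ℙ¹ → X`.

The last condition says that the vector bundle `f^* T_X` on `ℙ¹` is ample. By Grothendieck's
theorem `f^* T_X` is a sum of line bundles `𝒪(a_j)`, and it is ample iff all `a_j > 0`, that is,
iff the dual bundle `f^* Ω_X` has no nonzero global section. By the Euler sequence and the
conormal sequence, `f^* Ω_X` is the quotient of the bundle
`{ω ∈ 𝒪(-e)^(n+1) : ∑ ω_i f_i = 0}` by the line subbundle spanned by the vector
`∇F(f) = (∂_0 F(f), ..., ∂_n F(f))`. So a global section of `f^* Ω_X` is given by a vector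
`G` of polynomials in `t` (on the chart `s = 1`) and a vector `H` of polynomials in `s`
(on the chart `t = 1`) with `∑ G_i f_i = 0`, `∑ H_i f_i = 0` such that on the intersection of the
charts `G(t) - t^(-e) H(1/t)` is a multiple `h ∇F(f)` of `∇F(f)`, `h` a Laurent polynomial in `t`.
The section is zero iff `G` is a polynomial multiple of `∇F(f)` on the first chart and `H` is a
polynomial multiple of `∇F(f)` on the second one. -/
structure IsVeryFree {n : ℕ} (F : MvPolynomial (Fin (n + 1)) K) (e : ℕ)
    (f : Fin (n + 1) → MvPolynomial (Fin 2) K) : Prop where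
  homogeneous : ∀ i, (f i).IsHomogeneous e
  base_point_free : ∀ a : Fin 2 → K, a ≠ 0 → ∃ i, eval a (f i) ≠ 0
  on_hypersurface : aeval f F = 0
  ample : ∀ (G H : Fin (n + 1) → Polynomial K) (h : K[T;T⁻¹]),
    ∑ i, G i * chart0 (f i) = 0 → ∑ i, H i * chart1 (f i) = 0 →
    (∀ i, Polynomial.toLaurent (G i)
        - LaurentPolynomial.T (-(e : ℤ)) * LaurentPolynomial.invert (Polynomial.toLaurent (H i))
      = h * Polynomial.toLaurent (chart0 (aeval f (pderiv i F)))) →
    (∃ g : Polynomial K, ∀ i, G i = g * chart0 (aeval f (pderiv i F))) ∧
    (∃ g : Polynomial K, ∀ i, H i = g * chart1 (aeval f (pderiv i F)))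

/-- The rational normal curve of degree `d` in `ℙ^n` (`d ≤ n`), spanning the linear subspace
`x_(d+1) = ... = x_n = 0`: its coordinates are `f_i = s^(d-i) t^i` for `i ≤ d` and `f_i = 0` for
`i > d`. -/
noncomputable def ratNormal (K : Type*) [Field K] (n d : ℕ) :
    Fin (n + 1) → MvPolynomial (Fin 2) K :=
  fun i => if (i : ℕ) ≤ d then X 0 ^ (d - (i : ℕ)) * X 1 ^ (i : ℕ) else 0

end U199.SRC
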