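import Mathlib

/-! Coefficients of Laurent polynomials and the gluing lemma. -/

set_option autoImplicit false

namespace U199.SRC

open Polynomial LaurentPolynomial

variable {K : Type*} [Field K]

lemma coeff_mul_T (h : K[T;T⁻¹]) (a k : ℤ) : (h * T a).coeff k = h.coeff (k - a) := by
  have := AddMonoidAlgebra.coeff_mul_single_eq_coeff_mul (R := K) (x := h) (r := (1 : K)) (m := a)
    (m₁ := k) (k - a) (fun m' _ => by constructor <;> intro h <;> omega)
  rw [mul_one] at this
  exact this

lemma coeff_T_mul (h : K[T;T⁻¹]) (a k : ℤ) : (T a * h).coeff k = h.coeff (k - a) := by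
  rw [mul_comm, coeff_mul_T]

lemma coeff_C_mul' (h : K[T;T⁻¹]) (c : K) (k : ℤ) :
    (LaurentPolynomial.C c * h).coeff k = c * h.coeff k := by
  rw [← LaurentPolynomial.smul_eq_C_mul]; rfl

lemma coeff_toLaurent_nat (P : K[X]) (n : ℕ) : (toLaurent P).coeff (n : ℤ) = P.coeff n := by
  induction P using Polynomial.induction_on' with
  | add p q hp hq => simp only [map_add, Polynomial.coeff_add, ← hp, ← hq]; rfl
  | monomial m a =>
    rw [← Polynomial.C_mul_X_pow_eq_monomial, Polynomial.toLaurent_C_mul_X_pow, coeff_C_mul', T_apply,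
      Polynomial.coeff_C_mul_X_pow]
    by_cases h : m = n
    · simp [h]
    · have h' : ¬ (n = m) := fun e => h e.symm
      simp [h, h']

lemma coeff_toLaurent_neg (P : K[X]) (k : ℤ) (hk : k < 0) : (toLaurent P).coeff k = 0 := by
  induction P using Polynomial.induction_on' with
  | add p q hp hq =>
    have : (toLaurent (p + q)).coeff k = (toLaurent p).coeff k + (toLaurent q).coeff k := by
      rw [map_add]; rfl
    rw [this, hp, hq, add_zero]
  | monomial m a =>
    rw [← Polynomial.C_mul_X_pow_eq_monomial, Polynomial.toLaurent_C_mul_X_pow, coeff_C_mul', T_apply]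
    have : ¬ ((m : ℤ) = k) := by omega
    simp [this]

/-- multiplication by a polynomial, on coefficients -/
lemma coeff_mul_toLaurent (h : K[T;T⁻¹]) (P : K[X]) (k : ℤ) :
    (h * toLaurent P).coeff k = P.sum fun b c => c * h.coeff (k - b) := by
  induction P using Polynomial.induction_on' with
  | add p q hp hq =>
    have : (h * toLaurent (p + q)).coeff k = (h * toLaurent p).coeff k + (h * toLaurent q).coeff k := by
      rw [map_add, mul_add]; rfl
    rw [this, hp, hq, Polynomial.sum_add_index]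
    · intro i; simp
    · intro i a b; ring
  | monomial m a =>
    rw [← Polynomial.C_mul_X_pow_eq_monomial, Polynomial.toLaurent_C_mul_X_pow, mul_left_comm,
      coeff_C_mul', coeff_mul_T, Polynomial.C_mul_X_pow_eq_monomial, Polynomial.sum_monomial_index]
    simp

lemma exists_trunc (h : K[T;T⁻¹]) : ∃ g : K[X], ∀ n : ℕ, g.coeff n = h.coeff (n : ℤ) := by
  induction h using LaurentPolynomial.induction_on' with
  | add p q hp hq =>
    obtain ⟨g, hg⟩ := hp
    obtain ⟨g', hg'⟩ := hq
    refine ⟨g + g', fun n => ?_⟩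
    rw [Polynomial.coeff_add, hg, hg']; rfl
  | C_mul_T n a =>
    rcases lt_or_ge n 0 with hn | hn
    · refine ⟨0, fun m => ?_⟩
      rw [coeff_C_mul', T_apply]
      have : ¬ (n = (m : ℤ)) := by omega
      simp [this]
    · obtain ⟨m, rfl⟩ := Int.eq_ofNat_of_zero_le hn
      refine ⟨Polynomial.C a * X ^ m, fun k => ?_⟩
      rw [← coeff_toLaurent_nat, Polynomial.toLaurent_C_mul_X_pow]

lemma exists_of_nonneg (h : K[T;T⁻¹]) (hh : ∀ k < 0, h.coeff k = 0) :
    ∃ g : K[X], toLaurent g = h := by
  obtain ⟨g, hg⟩ := exists_trunc h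
  refine ⟨g, ?_⟩
  ext k
  rcases lt_or_ge k 0 with hk | hk
  · rw [hh k hk, coeff_toLaurent_neg _ _ hk]
  · obtain ⟨m, rfl⟩ := Int.eq_ofNat_of_zero_le hk
    rw [coeff_toLaurent_nat, hg]

/-- **Gluing.** -/
theorem glue {σ : Type*} (D0 D1 : σ → K[X]) (M e : ℕ) (he : 1 ≤ e)
    (hD : ∀ i, (D0 i).natDegree ≤ M)
    (hinv : ∀ i, invert (toLaurent (D0 i)) = T (-(M : ℤ)) * toLaurent (D1 i))
    (G H : σ → K[X]) (h : K[T;T⁻¹])
    (hG : ∀ i, toLaurent (G i) - T (-(e : ℤ)) * invert (toLaurent (H i)) = h * toLaurent (D0 i))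
    (hh : ∀ E : ℕ, E + 2 ≤ M + e → h.coeff (-1 - (E : ℤ)) = 0) :
    (∃ g : K[X], ∀ i, G i = g * D0 i) ∧ ∃ g : K[X], ∀ i, H i = g * D1 i := by
  obtain ⟨g, hg⟩ := exists_trunc h
  -- the difference
  have key : ∀ k : ℤ, -((M : ℤ) + e) < k → (h - toLaurent g).coeff k = 0 := by
    intro k hk
    have e1 : (h - toLaurent g).coeff k = h.coeff k - (toLaurent g).coeff k := rfl
    rw [e1]
    rcases lt_or_ge k 0 with hk0 | hk0
    · rw [coeff_toLaurent_neg _ _ hk0, sub_zero]
      obtain ⟨E, hE⟩ := Int.eq_ofNat_of_zero_le (show 0 ≤ -1 - k by omega)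
      have : k = -1 - (E : ℤ) := by omega
      rw [this]
      apply hh
      omega
    · obtain ⟨m, rfl⟩ := Int.eq_ofNat_of_zero_le hk0
      rw [coeff_toLaurent_nat, hg, sub_self]
  have key2 : ∀ i, ∀ k : ℤ, -(e : ℤ) < k → ((h - toLaurent g) * toLaurent (D0 i)).coeff k = 0 := by
    intro i k hk
    rw [coeff_mul_toLaurent, Polynomial.sum]
    apply Finset.sum_eq_zero
    intro b hb
    have hb' : b ≤ M := (le_natDegree_of_mem_supp b hb).trans (hD i)
    rw [key, mul_zero]
    omega
  have hGi : ∀ i, G i = g * D0 i := by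
    intro i
    apply toLaurent_injective
    ext k
    rcases lt_or_ge k 0 with hk0 | hk0
    · rw [coeff_toLaurent_neg _ _ hk0, coeff_toLaurent_neg _ _ hk0]
    · have h1 : toLaurent (G i) = toLaurent (g * D0 i) + (h - toLaurent g) * toLaurent (D0 i)
          + T (-(e : ℤ)) * invert (toLaurent (H i)) := by
        rw [map_mul]; linear_combination hG i
      have h2 : (T (-(e : ℤ)) * invert (toLaurent (H i))).coeff k = 0 := by
        rw [coeff_T_mul, invert_apply]
        apply coeff_toLaurent_neg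
        omega
      have h3 : (toLaurent (G i)).coeff k = (toLaurent (g * D0 i)).coeff k
          + ((h - toLaurent g) * toLaurent (D0 i)).coeff k
          + (T (-(e : ℤ)) * invert (toLaurent (H i))).coeff k := by
        conv_lhs => rw [h1]
        rfl
      rw [h3, h2, key2 i k (by omega), add_zero, add_zero]
  refine ⟨⟨g, hGi⟩, ?_⟩
  obtain ⟨q, hq⟩ := exists_of_nonneg (T (-((M : ℤ) + e)) * invert (toLaurent g - h)) (by
    intro k hk
    rw [coeff_T_mul, invert_apply]
    have := key (-(k - -((M : ℤ) + e))) (by omega)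
    have e1 : (toLaurent g - h).coeff (-(k - -((M : ℤ) + e))) =
      - (h - toLaurent g).coeff (-(k - -((M : ℤ) + e))) := by
      have : toLaurent g - h = -(h - toLaurent g) := by ring
      rw [this]; rfl
    rw [e1, this, neg_zero])
  refine ⟨q, fun i => ?_⟩
  apply toLaurent_injective
  have h1 : T (-(e : ℤ)) * invert (toLaurent (H i)) = (toLaurent g - h) * toLaurent (D0 i) := by
    have := hG i
    rw [hGi i, map_mul] at this
    linear_combination -this
  have h2 := congrArg (invert (R := K)) h1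
  rw [map_mul, map_mul, invert_T, neg_neg] at h2
  have h3 : invert (invert (toLaurent (H i))) = toLaurent (H i) := by
    ext k; simp only [invert_apply, neg_neg]
  rw [h3, hinv i] at h2
  have h4 : toLaurent (H i) = T (-(e : ℤ)) * (T (e : ℤ) * toLaurent (H i)) := by
    rw [← mul_assoc, ← T_add, neg_add_cancel, T_zero, one_mul]
  rw [h4, h2, map_mul, hq, show (-((M : ℤ) + e)) = -(e : ℤ) + -(M : ℤ) by ring, T_add]
  ring

end U199.SRC
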