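import Mathlib
import Pool.Agent.U199.SRC.Defs
import Pool.Agent.U199.SRC.Laurent

/-! A criterion for ampleness in terms of linear functionals. -/

set_option autoImplicit false

namespace U199.SRC

open MvPolynomial
open scoped LaurentPolynomial

variable {K : Type*} [Field K]

lemma chart0_eq (g : MvPolynomial (Fin 2) K) :
    chart0 g = ∑ u ∈ g.support, Polynomial.C (coeff u g) * Polynomial.X ^ (u 1) := by
  rw [chart0, aeval_def, eval₂_eq']
  refine Finset.sum_congr rfl fun u _ => ?_
  simp [Fin.prod_univ_two]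

lemma chart1_eq (g : MvPolynomial (Fin 2) K) :
    chart1 g = ∑ u ∈ g.support, Polynomial.C (coeff u g) * Polynomial.X ^ (u 0) := by
  rw [chart1, aeval_def, eval₂_eq']
  refine Finset.sum_congr rfl fun u _ => ?_
  simp [Fin.prod_univ_two]

lemma hom_sum {g : MvPolynomial (Fin 2) K} {m : ℕ} (hg : g.IsHomogeneous m) {u : Fin 2 →₀ ℕ}
    (hu : u ∈ g.support) : u 0 + u 1 = m := by
  have := hg (mem_support_iff.1 hu)
  rw [Finsupp.weight_apply] at this
  rw [Finsupp.sum_fintype _ _ (by simp)] at this
  simpa [Fin.sum_univ_two] using this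

lemma natDegree_chart0 {g : MvPolynomial (Fin 2) K} {m : ℕ} (hg : g.IsHomogeneous m) :
    (chart0 g).natDegree ≤ m := by
  rw [chart0_eq]
  apply Polynomial.natDegree_sum_le_of_forall_le
  intro u hu
  refine (Polynomial.natDegree_C_mul_X_pow_le _ _).trans ?_
  have := hom_sum hg hu
  omega

lemma invert_chart0 {g : MvPolynomial (Fin 2) K} {m : ℕ} (hg : g.IsHomogeneous m) :
    LaurentPolynomial.invert (Polynomial.toLaurent (chart0 g))
      = LaurentPolynomial.T (-(m : ℤ)) * Polynomial.toLaurent (chart1 g) := by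
  rw [chart0_eq, chart1_eq, map_sum, map_sum, map_sum, Finset.mul_sum]
  refine Finset.sum_congr rfl fun u hu => ?_
  rw [Polynomial.toLaurent_C_mul_X_pow, Polynomial.toLaurent_C_mul_X_pow, map_mul,
    LaurentPolynomial.invert_C, LaurentPolynomial.invert_T, mul_left_comm, ← LaurentPolynomial.T_add]
  congr 2
  have := hom_sum hg hu
  omega

/-- the functional `P ↦ coefficient of T⁻¹ in h P` -/
noncomputable def resF (h : K[T;T⁻¹]) : Polynomial K →ₗ[K] K where
  toFun P := (h * Polynomial.toLaurent P).coeff (-1)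
  map_add' P Q := by rw [map_add, mul_add]; rfl
  map_smul' c P := by
    rw [Polynomial.smul_eq_C_mul, Polynomial.toLaurent_C_mul_eq, mul_left_comm, coeff_C_mul']
    rfl

lemma resF_apply (h : K[T;T⁻¹]) (P : Polynomial K) :
    resF h P = (h * Polynomial.toLaurent P).coeff (-1) := rfl

/-- The criterion. -/
theorem ample_of_span {n d e : ℕ} (he : 1 ≤ e) (F : MvPolynomial (Fin (n + 1)) K)
    (hF : F.IsHomogeneous d) (f : Fin (n + 1) → MvPolynomial (Fin 2) K)
    (hf : ∀ i, (f i).IsHomogeneous e) (h0 : chart0 (f 0) = 1)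
    (h1 : ∀ i, i ≠ 0 → Polynomial.X ∣ chart0 (f i))
    (span : ∀ ℓ : Polynomial K →ₗ[K] K,
      (∀ i, ∀ x : ℕ, x + 2 ≤ e →
        ℓ (Polynomial.X ^ x * chart0 (aeval f (pderiv i F))) = 0) →
      (∀ Q, chart0 (aeval f (pderiv 0 F)) = Polynomial.X * Q → ℓ Q = 0) →
      ∀ E : ℕ, E + 2 ≤ e * (d - 1) + e → ℓ (Polynomial.X ^ E) = 0)
    (G H : Fin (n + 1) → Polynomial K) (h : K[T;T⁻¹])
    (hG0 : ∑ i, G i * chart0 (f i) = 0)
    (hGH : ∀ i, Polynomial.toLaurent (G i)
        - LaurentPolynomial.T (-(e : ℤ)) * LaurentPolynomial.invert (Polynomial.toLaurent (H i))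
      = h * Polynomial.toLaurent (chart0 (aeval f (pderiv i F)))) :
    (∃ g : Polynomial K, ∀ i, G i = g * chart0 (aeval f (pderiv i F))) ∧
    (∃ g : Polynomial K, ∀ i, H i = g * chart1 (aeval f (pderiv i F))) := by
  have hD : ∀ i, (aeval f (pderiv i F)).IsHomogeneous (e * (d - 1)) := fun i =>
    (hF.pderiv).aeval f hf
  refine glue (fun i => chart0 (aeval f (pderiv i F))) (fun i => chart1 (aeval f (pderiv i F)))
    (e * (d - 1)) e he (fun i => natDegree_chart0 (hD i)) (fun i => invert_chart0 (hD i)) G H h hGH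
    ?_
  -- coefficients of the left hand side
  have co : ∀ i, ∀ k : ℤ, -(e : ℤ) < k →
      (h * Polynomial.toLaurent (chart0 (aeval f (pderiv i F)))).coeff k
        = (Polynomial.toLaurent (G i)).coeff k := by
    intro i k hk
    rw [← hGH i]
    have e1 : (Polynomial.toLaurent (G i) - LaurentPolynomial.T (-(e : ℤ)) *
        LaurentPolynomial.invert (Polynomial.toLaurent (H i))).coeff k
        = (Polynomial.toLaurent (G i)).coeff k - (LaurentPolynomial.T (-(e : ℤ)) *
        LaurentPolynomial.invert (Polynomial.toLaurent (H i))).coeff k := rfl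
    rw [e1, coeff_T_mul, LaurentPolynomial.invert_apply, coeff_toLaurent_neg (H i) _ (by omega),
      sub_zero]
  have hG00 : (G 0).coeff 0 = 0 := by
    have := congrArg (fun P => Polynomial.coeff P 0) hG0
    simp only [Polynomial.finsetSum_coeff, Polynomial.coeff_zero] at this
    rw [Finset.sum_eq_single 0] at this
    · rwa [h0, mul_one] at this
    · intro i _ hi
      obtain ⟨q, hq⟩ := h1 i hi
      rw [hq, Polynomial.mul_coeff_zero, Polynomial.mul_coeff_zero]; simp
    · simp
  have hs := span (resF h) ?_ ?_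
  · intro E hE
    have := hs E hE
    rwa [resF_apply, Polynomial.toLaurent_X_pow, coeff_mul_T] at this
  · intro i x hx
    rw [resF_apply, map_mul, Polynomial.toLaurent_X_pow, mul_left_comm, coeff_T_mul,
      co i _ (by omega), coeff_toLaurent_neg _ _ (by omega)]
  · intro Q hQ
    rw [resF_apply]
    have h2 := co 0 0 (by omega)
    rw [hQ, map_mul, Polynomial.toLaurent_X, mul_left_comm, coeff_T_mul] at h2
    have h3 : (Polynomial.toLaurent (G 0)).coeff 0 = 0 := by
      have := coeff_toLaurent_nat (G 0) 0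
      rw [hG00] at this
      exact_mod_cast this
    rw [h3] at h2
    simpa using h2

end U199.SRC
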