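import Mathlib

/-! Directional derivatives of polynomials in several variables. -/

set_option autoImplicit false

namespace U199.SRC

open MvPolynomial

variable {σ R A : Type*} [Fintype σ] [CommRing R] [CommRing A] [Algebra R A]

/-- directional derivative of `F` at `x` in direction `y` -/
noncomputable def dd (F : MvPolynomial σ R) (x y : σ → A) : A :=
  ∑ i, y i * aeval x (pderiv i F)

variable (F G : MvPolynomial σ R) (x y : σ → A)

lemma dd_add : dd (F + G) x y = dd F x y + dd G x y := by
  simp [dd, mul_add, Finset.sum_add_distrib]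

lemma dd_sub : dd (F - G) x y = dd F x y - dd G x y := by
  simp [dd, mul_sub, Finset.sum_sub_distrib]

lemma dd_mul : dd (F * G) x y = dd F x y * aeval x G + aeval x F * dd G x y := by
  simp only [dd, pderiv_mul, map_add, map_mul, Finset.sum_mul, Finset.mul_sum,
    ← Finset.sum_add_distrib]
  refine Finset.sum_congr rfl fun i _ => ?_
  ring

lemma dd_pow (m : ℕ) : dd (F ^ m) x y = m * aeval x F ^ (m - 1) * dd F x y := by
  simp only [dd, pderiv_pow, map_mul, map_pow, map_natCast, Finset.mul_sum]
  refine Finset.sum_congr rfl fun i _ => ?_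
  ring

lemma dd_C (a : R) : dd (C a) x y = 0 := by simp [dd]

lemma dd_X (i : σ) : dd (X i : MvPolynomial σ R) x y = y i := by
  classical
  rw [dd, Finset.sum_eq_single i]
  · simp
  · intro j _ hj
    rw [pderiv_X_of_ne (Ne.symm hj)]; simp
  · simp

lemma dd_sum {ι : Type*} (s : Finset ι) (f : ι → MvPolynomial σ R) :
    dd (∑ i ∈ s, f i) x y = ∑ i ∈ s, dd (f i) x y := by
  classical
  induction s using Finset.induction_on with
  | empty => simp [dd]
  | insert a s ha ih => rw [Finset.sum_insert ha, Finset.sum_insert ha, dd_add, ih]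

lemma dd_single [DecidableEq σ] (i : σ) (a : A) :
    dd F x (Pi.single i a) = a * aeval x (pderiv i F) := by
  rw [dd, Finset.sum_eq_single i]
  · simp
  · intro j _ hj
    simp [Pi.single_eq_of_ne hj]
  · simp

lemma dd_eq_zero (h : ∀ i, aeval x (pderiv i F) = 0) : dd F x y = 0 := by
  simp [dd, h]

end U199.SRC
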