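import Mathlib
import Pool.Agent.U199.SRC.DD
import Pool.Agent.U199.SRC.Defs

/-! Common notions for the families of hypersurfaces. -/

set_option autoImplicit false

namespace U199.SRC

open MvPolynomial Finset

/-- the index `i` as an element of `Fin (N + 1)` -/
abbrev ix (N i : ℕ) : Fin (N + 1) := Fin.ofNat (N + 1) i

lemma ix_val {N i : ℕ} (h : i ≤ N) : (ix N i : ℕ) = i := by
  simp [ix, Fin.ofNat, Nat.mod_eq_of_lt (by omega : i < N + 1)]

lemma ix_self {N : ℕ} (i : Fin (N + 1)) : ix N (i : ℕ) = i := by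
  apply Fin.ext
  rw [ix_val (by omega)]

lemma ix_inj {N i j : ℕ} (hi : i ≤ N) (hj : j ≤ N) : ix N i = ix N j ↔ i = j := by
  rw [Fin.ext_iff, ix_val hi, ix_val hj]

lemma single_ix {A : Type*} [Zero A] {N i j : ℕ} (hi : i ≤ N) (hj : j ≤ N) (a : A) :
    (Pi.single (ix N j) a : Fin (N + 1) → A) (ix N i) = if i = j then a else 0 := by
  rw [Pi.single_apply]
  simp only [ix_inj hi hj]

section

variable (K : Type*) [Field K]

/-- the rational normal curve of degree `d` in the affine chart `s = 1` -/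
noncomputable def cv (N d : ℕ) : Fin (N + 1) → Polynomial K :=
  fun i => if (i : ℕ) ≤ d then Polynomial.X ^ (i : ℕ) else 0

lemma cv_ix {N i : ℕ} (h : i ≤ N) : cv K N N (ix N i) = Polynomial.X ^ i := by
  rw [cv, ix_val h, if_pos h]

lemma ratNormal_ix {N i : ℕ} (h : i ≤ N) : ratNormal K N N (ix N i) = X 0 ^ (N - i) * X 1 ^ i := by
  rw [ratNormal, ix_val h, if_pos h]

/-- The properties of the hypersurface `F = 0` of degree `d` in `ℙ^N`: it is smooth, it contains
the rational normal curve of degree `d`, the linear conditions for ampleness, and (if `p ∣ d`) some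
coordinate hyperplane section is smooth. -/
structure Good (p : ℕ) [Fact p.Prime] [Algebra (ZMod p) K] (N d : ℕ)
    (F : MvPolynomial (Fin (N + 1)) (ZMod p)) : Prop where
  hom : F.IsHomogeneous d
  smooth : ∀ x : Fin (N + 1) → K, (∀ i, aeval x (pderiv i F) = 0) → aeval x F = 0 → x = 0
  onX : aeval (ratNormal K N d) F = 0
  span : ∀ ℓ : Polynomial K →ₗ[K] K,
    (∀ i, ∀ x : ℕ, x + 2 ≤ d → ℓ (Polynomial.X ^ x * aeval (cv K N d) (pderiv i F)) = 0) →
    (∀ Q, aeval (cv K N d) (pderiv 0 F) = Polynomial.X * Q → ℓ Q = 0) →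
    ∀ E : ℕ, E + 2 ≤ d * d → ℓ (Polynomial.X ^ E) = 0
  hyp : p ∣ d → ∃ v, ∀ x : Fin (N + 1) → K, x v = 0 →
    (∀ i, i ≠ v → aeval x (pderiv i F) = 0) → aeval x F = 0 → x = 0

end

section

variable {σ R A : Type*} [Fintype σ] [CommRing R] [CommRing A] [Algebra R A]

lemma dd_natCast (k : ℕ) (x y : σ → A) : dd (k : MvPolynomial σ R) x y = 0 := by
  have : (k : MvPolynomial σ R) = C (k : R) := by simp
  rw [this, dd_C]

lemma dd_intCast (k : ℤ) (x y : σ → A) : dd (k : MvPolynomial σ R) x y = 0 := by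
  have : (k : MvPolynomial σ R) = C (k : R) := by simp
  rw [this, dd_C]

end

lemma lin_nat {K : Type*} [Field K] (ℓ : Polynomial K →ₗ[K] K) (k : ℕ) (P : Polynomial K) :
    ℓ ((k : Polynomial K) * P) = (k : K) * ℓ P := by
  have : (k : Polynomial K) * P = (k : K) • P := by
    rw [Polynomial.smul_eq_C_mul]; simp
  rw [this, map_smul, smul_eq_mul]

lemma lin_int {K : Type*} [Field K] (ℓ : Polynomial K →ₗ[K] K) (k : ℤ) (P : Polynomial K) :
    ℓ ((k : Polynomial K) * P) = (k : K) * ℓ P := by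
  have : (k : Polynomial K) * P = (k : K) • P := by
    rw [Polynomial.smul_eq_C_mul]; simp
  rw [this, map_smul, smul_eq_mul]

end U199.SRC
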