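import Mathlib
import Pool.Agent.U199.SRC.Base

/-! From `ℙ^N` to `ℙ^(N+1)`. -/

set_option autoImplicit false

namespace U199.SRC

open MvPolynomial Finset

section

variable {R A : Type*} [CommRing R] [CommRing A] [Algebra R A] {N : ℕ}

lemma aeval_cast (F : MvPolynomial (Fin (N + 1)) R) (x : Fin (N + 1 + 1) → A) :
    aeval x (rename Fin.castSucc F) = aeval (fun j => x (Fin.castSucc j)) F := by
  rw [aeval_rename]; rfl

lemma aeval_pderiv_cast (F : MvPolynomial (Fin (N + 1)) R) (x : Fin (N + 1 + 1) → A)
    (i : Fin (N + 1)) :
    aeval x (pderiv (Fin.castSucc i) (rename Fin.castSucc F))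
      = aeval (fun j => x (Fin.castSucc j)) (pderiv i F) := by
  rw [pderiv_rename (Fin.castSucc_injective _), aeval_cast]

lemma aeval_pderiv_cast_last (F : MvPolynomial (Fin (N + 1)) R) (x : Fin (N + 1 + 1) → A) :
    aeval x (pderiv (Fin.last (N + 1)) (rename Fin.castSucc F)) = 0 := by
  classical
  rw [pderiv_eq_zero_of_notMem_vars, map_zero]
  intro h
  have := vars_rename Fin.castSucc F h
  rw [mem_image] at this
  obtain ⟨j, _, hj⟩ := this
  exact (Fin.castSucc_lt_last j).ne hj

end

lemma aeval_hom_zero {R K σ : Type*} [CommRing R] [CommRing K] [Algebra R K]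
    {P : MvPolynomial σ R} {k : ℕ} (hP : P.IsHomogeneous k) (hk : k ≠ 0) :
    aeval (0 : σ → K) P = 0 := by
  rw [aeval_zero, constantCoeff_eq, hP.coeff_eq_zero (by simpa using hk.symm), map_zero]

section

variable {K : Type*} [Field K] {N d : ℕ}

lemma cv_cast (i : Fin (N + 1)) : cv K (N + 1) d (Fin.castSucc i) = cv K N d i := rfl

lemma ratNormal_cast (i : Fin (N + 1)) : ratNormal K (N + 1) d (Fin.castSucc i) = ratNormal K N d i := rfl

lemma cv_last (h : d ≤ N) : cv K (N + 1) d (Fin.last (N + 1)) = 0 := by
  rw [cv, if_neg]; simp; omega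

lemma ratNormal_last (h : d ≤ N) : ratNormal K (N + 1) d (Fin.last (N + 1)) = 0 := by
  rw [ratNormal, if_neg]; simp; omega

end

theorem good_ext {p : ℕ} [Fact p.Prime] {K : Type*} [Field K] [Algebra (ZMod p) K] {N d : ℕ}
    {F : MvPolynomial (Fin (N + 1)) (ZMod p)} (hd : 2 ≤ d) (hdN : d ≤ N) (hF : Good K p N d F) :
    ∃ F', Good K p (N + 1) d F' := by
  have : CharP K p := charP_of_injective_algebraMap (algebraMap (ZMod p) K).injective p
  by_cases hp : p ∣ d
  · obtain ⟨v, hv⟩ := hF.hyp hp
    have hdK : ((d - 1 : ℕ) : K) ≠ 0 := by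
      have h0 : (d : K) = 0 := (CharP.cast_eq_zero_iff K p d).2 hp
      rw [Nat.cast_sub (by omega), h0]
      simp
    set L := Fin.last (N + 1) with hL
    set G : MvPolynomial (Fin (N + 1 + 1)) (ZMod p) := X L ^ (d - 1) * X (Fin.castSucc v) with hG
    have cne : ∀ i : Fin (N + 1), Fin.castSucc i ≠ L := fun i => (Fin.castSucc_lt_last i).ne
    -- the derivatives of `G`
    have dGc : ∀ {A : Type _} [CommRing A] [Algebra (ZMod p) A] (x : Fin (N + 1 + 1) → A)
        (i : Fin (N + 1)), aeval x (pderiv (Fin.castSucc i) G)
          = if i = v then x L ^ (d - 1) else 0 := by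
      intro A _ _ x i
      rw [hG, pderiv_mul, pderiv_pow, pderiv_X_of_ne (cne i).symm]
      split_ifs with h
      · rw [h, pderiv_X_self]; simp
      · rw [pderiv_X_of_ne (fun e => h (Fin.castSucc_injective _ e).symm)]; simp
    have dGl : ∀ (x : Fin (N + 1 + 1) → K), aeval x (pderiv L G)
          = ((d - 1 : ℕ) : K) * x L ^ (d - 2) * x (Fin.castSucc v) := by
      intro x
      rw [hG, pderiv_mul, pderiv_pow, pderiv_X_self, pderiv_X_of_ne (cne v)]
      simp [Nat.sub_sub]
    have eG : ∀ {A : Type _} [CommRing A] [Algebra (ZMod p) A] (x : Fin (N + 1 + 1) → A),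
        aeval x G = x L ^ (d - 1) * x (Fin.castSucc v) := by
      intro A _ _ x
      simp [hG]
    have eq0 : ∀ (x : Fin (N + 1 + 1) → K), x L = 0 → (fun j => x (Fin.castSucc j)) = 0 →
        x = 0 := by
      intro x h1 h2
      funext i
      refine Fin.lastCases h1 (fun j => ?_) i
      exact congrFun h2 j
    refine ⟨rename Fin.castSucc F + G, ?_, ?_, ?_, ?_, ?_⟩
    · refine (hF.hom.rename_isHomogeneous).add ?_
      have := (isHomogeneous_X_pow (R := ZMod p) L (d - 1)).mul
        (isHomogeneous_X (R := ZMod p) (Fin.castSucc v))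
      rwa [show d - 1 + 1 = d by omega] at this
    · intro x hx hx0
      set x' : Fin (N + 1) → K := fun j => x (Fin.castSucc j) with hx'
      have h1 := hx L
      rw [map_add, map_add, aeval_pderiv_cast_last, dGl, zero_add] at h1
      rw [map_add, aeval_cast, eG] at hx0
      have h2 : ∀ i, aeval x' (pderiv i F) + (if i = v then x L ^ (d - 1) else 0) = 0 := by
        intro i
        have := hx (Fin.castSucc i)
        rwa [map_add, map_add, aeval_pderiv_cast, dGc] at this
      rcases eq_or_ne (x L) 0 with hz | hz
      · apply eq0 x hz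
        apply hF.smooth
        · intro i
          have := h2 i
          rw [hz, zero_pow (by omega)] at this
          simpa using this
        · rw [hz, zero_pow (by omega), zero_mul, add_zero] at hx0
          exact hx0
      · exfalso
        have hxv : x' v = 0 :=
          (mul_eq_zero.1 h1).resolve_left (mul_ne_zero hdK (pow_ne_zero _ hz))
        have hx'0 : x' = 0 := by
          apply hv x' hxv
          · intro i hi
            have := h2 i
            rw [if_neg hi, add_zero] at this
            exact this
          · have e : x (Fin.castSucc v) = 0 := hxv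
            rw [e, mul_zero, add_zero] at hx0
            exact hx0
        have := h2 v
        rw [hx'0, aeval_hom_zero hF.hom.pderiv (by omega), if_pos rfl, zero_add] at this
        exact pow_ne_zero _ hz this
    · rw [map_add, aeval_cast, eG, ratNormal_last hdN, zero_pow (by omega), zero_mul, add_zero]
      exact hF.onX
    · intro ℓ h1 h2
      apply hF.span ℓ
      · intro i x hx
        have := h1 (Fin.castSucc i) x hx
        rw [map_add, map_add, aeval_pderiv_cast, dGc, cv_last hdN, zero_pow (by omega), ite_self,
          add_zero] at this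
        exact this
      · intro Q hQ
        apply h2 Q
        rw [← hQ, ← Fin.castSucc_zero, map_add, map_add, aeval_pderiv_cast, dGc, cv_last hdN,
          zero_pow (by omega), ite_self, add_zero]
        rfl
    · intro _
      refine ⟨L, fun x hz hx hx0 => ?_⟩
      apply eq0 x hz
      apply hF.smooth
      · intro i
        have := hx (Fin.castSucc i) (cne i)
        rw [map_add, map_add, aeval_pderiv_cast, dGc, hz, zero_pow (by omega), ite_self,
          add_zero] at this
        exact this
      · rw [map_add, aeval_cast, eG, hz, zero_pow (by omega), zero_mul, add_zero] at hx0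
        exact hx0
  · have hdK : (d : K) ≠ 0 := fun h => hp ((CharP.cast_eq_zero_iff K p d).1 h)
    set L := Fin.last (N + 1) with hL
    have cne : ∀ i : Fin (N + 1), Fin.castSucc i ≠ L := fun i => (Fin.castSucc_lt_last i).ne
    have dGc : ∀ {A : Type _} [CommRing A] [Algebra (ZMod p) A] (x : Fin (N + 1 + 1) → A)
        (i : Fin (N + 1)), aeval x (pderiv (Fin.castSucc i)
          (X L ^ d : MvPolynomial (Fin (N + 1 + 1)) (ZMod p))) = 0 := by
      intro A _ _ x i
      rw [pderiv_pow, pderiv_X_of_ne (cne i).symm]
      simp
    refine ⟨rename Fin.castSucc F + X L ^ d, ?_, ?_, ?_, ?_, fun h => absurd h hp⟩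
    · exact (hF.hom.rename_isHomogeneous).add (isHomogeneous_X_pow _ _)
    · intro x hx hx0
      have hz : x L = 0 := by
        have h1 := hx L
        rw [map_add, map_add, aeval_pderiv_cast_last, zero_add, pderiv_pow, pderiv_X_self] at h1
        simp only [mul_one, map_mul, map_natCast, map_pow, aeval_X] at h1
        exact pow_eq_zero_iff (by omega : d - 1 ≠ 0) |>.1 ((mul_eq_zero.1 h1).resolve_left hdK)
      have h2 : (fun j => x (Fin.castSucc j)) = 0 := by
        apply hF.smooth
        · intro i
          have := hx (Fin.castSucc i)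
          rw [map_add, map_add, aeval_pderiv_cast, dGc, add_zero] at this
          exact this
        · rw [map_add, aeval_cast, map_pow, aeval_X, hz, zero_pow (by omega), add_zero] at hx0
          exact hx0
      funext i
      refine Fin.lastCases hz (fun j => ?_) i
      exact congrFun h2 j
    · rw [map_add, aeval_cast, map_pow, aeval_X, ratNormal_last hdN, zero_pow (by omega), add_zero]
      exact hF.onX
    · intro ℓ h1 h2
      apply hF.span ℓ
      · intro i x hx
        have := h1 (Fin.castSucc i) x hx
        rw [map_add, map_add, aeval_pderiv_cast, dGc, add_zero] at this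
        exact this
      · intro Q hQ
        apply h2 Q
        rw [← hQ, ← Fin.castSucc_zero, map_add, map_add, aeval_pderiv_cast, dGc, add_zero]
        rfl

end U199.SRC
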