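import Mathlib

/-! Arithmetic of the functionals: three systems of linear equations with only the zero solution. -/

set_option autoImplicit false

namespace U199.SRC

open Finset

variable {K : Type*} [Field K]

theorem arithA (m : ℕ) (ℓ : ℕ → K)
    (hj : ∀ j, 1 ≤ j → j ≤ m + 1 → ∀ x ≤ m, ℓ (j * (m + 1) + x) = 0)
    (h0 : ∀ x ≤ m, ∑ i ∈ range (m + 1), ((m : K) + 1 - i) * ℓ ((i + 1) * (m + 2) + x) = 0)
    (hn : ∀ x ≤ m, ∑ i ∈ range (m + 1), ((i : K) + 1) * ℓ (i * (m + 2) + x) = 0) :
    ∀ E, E + 2 ≤ (m + 2) * (m + 2) → ℓ E = 0 := by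
  have mid : ∀ E, m + 1 ≤ E → E < (m + 2) * (m + 1) → ℓ E = 0 := by
    intro E h1 h2
    have e1 : E / (m + 1) * (m + 1) + E % (m + 1) = E := Nat.div_add_mod' E (m + 1)
    rw [← e1]
    apply hj
    · exact (Nat.one_le_div_iff (by omega)).2 h1
    · have := (Nat.div_lt_iff_lt_mul (by omega : 0 < m + 1)).2 h2
      omega
    · have := Nat.mod_lt E (by omega : 0 < m + 1)
      omega
  have q1 : (m + 2) * (m + 1) = m * (m + 2) + (m + 2) := by ring
  have q2 : (m + 2) * (m + 2) = m * (m + 2) + 2 * (m + 2) := by ring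
  intro E hE
  rcases lt_or_ge E (m + 1) with h | h
  · have := hn E (by omega)
    rw [sum_range_succ', sum_eq_zero] at this
    · simpa using this
    · intro i hi
      rw [mem_range] at hi
      have b1 : (i + 1) * (m + 2) ≤ m * (m + 2) := Nat.mul_le_mul_right _ (by omega)
      have b2 : 1 * (m + 2) ≤ (i + 1) * (m + 2) := Nat.mul_le_mul_right _ (by omega)
      rw [mid _ (by omega) (by omega), mul_zero]
  · rcases lt_or_ge E ((m + 2) * (m + 1)) with h' | h'
    · exact mid E h h'
    · obtain ⟨x, rfl⟩ := Nat.exists_eq_add_of_le h'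
      have := h0 x (by omega)
      rw [sum_range_succ, sum_eq_zero] at this
      · rw [show (m + 2) * (m + 1) + x = (m + 1) * (m + 2) + x by ring]
        have e : (m : K) + 1 - m = 1 := by ring
        rwa [e, one_mul, zero_add] at this
      · intro i hi
        rw [mem_range] at hi
        have b1 : (i + 1) * (m + 2) ≤ m * (m + 2) := Nat.mul_le_mul_right _ (by omega)
        have b2 : 1 * (m + 2) ≤ (i + 1) * (m + 2) := Nat.mul_le_mul_right _ (by omega)
        rw [mid _ (by omega) (by omega), mul_zero]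

theorem arithB (m : ℕ) (ℓ : ℕ → K) (α : K) (hα : α ≠ 0) (hα' : α ≠ 4)
    (h1 : ∀ x ≤ m + 1, ℓ ((m + 3) * (m + 2) + x) = 0)
    (hl : ∀ x ≤ m + 1, ℓ x = 0)
    (hj : ∀ j, 2 ≤ j → j ≤ m + 1 → ∀ x ≤ m + 1, ℓ (j * (m + 2) + x) = 0)
    (h0 : ∀ x ≤ m + 1, α * ℓ ((m + 2) + x)
      - ∑ i ∈ range m, ((m : K) + 1 - i) * ℓ ((i + 2) * (m + 3) + x) = 0)
    (hn : ∀ x ≤ m + 1, ℓ ((m + 2) * (m + 2) + x)
      - ∑ i ∈ range m, ((i : K) + 2) * ℓ ((i + 1) * (m + 3) + x) = 0) :
    ∀ E, E + 2 ≤ (m + 3) * (m + 3) → ℓ E = 0 := by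
  have mid : ∀ E, 2 * (m + 2) ≤ E → E < (m + 2) * (m + 2) → ℓ E = 0 := by
    intro E h1 h2
    have e1 : E / (m + 2) * (m + 2) + E % (m + 2) = E := Nat.div_add_mod' E (m + 2)
    rw [← e1]
    apply hj
    · exact (Nat.le_div_iff_mul_le (by omega)).2 h1
    · have := (Nat.div_lt_iff_lt_mul (by omega : 0 < m + 2)).2 h2
      omega
    · have := Nat.mod_lt E (by omega : 0 < m + 2)
      omega
  have q0 : m * (m + 3) = m * (m + 2) + m := by ring
  have q1 : (m + 2) * (m + 2) = m * (m + 2) + 2 * (m + 2) := by ring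
  have q2 : (m + 3) * (m + 3) = m * (m + 2) + 4 * (m + 2) + 1 := by ring
  have q3 : (m + 3) * (m + 2) = m * (m + 2) + 3 * (m + 2) := by ring
  -- low block
  have hb : ∀ x ≤ m + 1, ℓ ((m + 2) + x) = 0 := by
    rcases Nat.eq_zero_or_pos m with rfl | hm
    · intro x hx
      have := h0 x hx
      simp only [range_zero, sum_empty, sub_zero] at this
      exact (mul_eq_zero.1 this).resolve_left hα
    · obtain ⟨r, rfl⟩ : ∃ r, m = r + 1 := ⟨m - 1, by omega⟩
      -- δ x in terms of β
      have hd : ∀ x ≤ r + 2, ℓ ((r + 1 + 2) * (r + 1 + 2) + x) = 2 * ℓ ((r + 1 + 3) + x) := by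
        intro x hx
        have := hn x (by omega)
        rw [sum_range_succ', sum_eq_zero] at this
        · simp only [zero_add, one_mul, Nat.cast_zero] at this
          linear_combination this
        · intro i hi
          rw [mem_range] at hi
          have b1 : (i + 1 + 1) * (r + 1 + 3) ≤ (r + 1) * (r + 1 + 3) :=
            Nat.mul_le_mul_right _ (by omega)
          have b2 : 2 * (r + 1 + 3) ≤ (i + 1 + 1) * (r + 1 + 3) :=
            Nat.mul_le_mul_right _ (by omega)
          rw [mid _ (by omega) (by omega), mul_zero]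
      have hb' : ∀ x ≤ r + 2, α * ℓ ((r + 1 + 2) + x) = 2 * ℓ ((r + 2) * (r + 1 + 3) + x) := by
        intro x hx
        have := h0 x (by omega)
        rw [sum_range_succ, sum_eq_zero] at this
        · have e : ((r + 1 : ℕ) : K) + 1 - (r : K) = 2 := by push_cast; ring
          rw [e] at this
          linear_combination this
        · intro i hi
          rw [mem_range] at hi
          have b1 : (i + 2) * (r + 1 + 3) ≤ (r + 1) * (r + 1 + 3) :=
            Nat.mul_le_mul_right _ (by omega)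
          have b2 : 2 * (r + 1 + 3) ≤ (i + 2) * (r + 1 + 3) :=
            Nat.mul_le_mul_right _ (by omega)
          rw [mid _ (by omega) (by omega), mul_zero]
      have q4 : (r + 2) * (r + 1 + 3) = (r + 1) * (r + 1 + 3) + (r + 1 + 3) := by ring
      intro x hx
      rcases Nat.eq_zero_or_pos x with rfl | hx0
      · have h2 := hb' 0 (by omega)
        have b3 : 2 * (r + 1 + 3) ≤ (r + 2) * (r + 1 + 3) := Nat.mul_le_mul_right _ (by omega)
        rw [mid ((r + 2) * (r + 1 + 3) + 0) (by omega) (by omega), mul_zero] at h2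
        exact (mul_eq_zero.1 h2).resolve_left hα
      · obtain ⟨y, rfl⟩ : ∃ y, x = y + 1 := ⟨x - 1, by omega⟩
        have h2 := hb' (y + 1) (by omega)
        have h3 := hd y (by omega)
        rw [show (r + 2) * (r + 1 + 3) + (y + 1) = (r + 1 + 2) * (r + 1 + 2) + y by
          ring, h3, show (r + 1 + 3) + y = (r + 1 + 2) + (y + 1) by ring] at h2
        have h4 : (α - 4) * ℓ (r + 1 + 2 + (y + 1)) = 0 := by linear_combination h2
        exact (mul_eq_zero.1 h4).resolve_left (sub_ne_zero.2 hα')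
  have low : ∀ E, E < (m + 2) * (m + 2) → ℓ E = 0 := by
    intro E hE
    rcases lt_or_ge E (m + 2) with h | h
    · exact hl E (by omega)
    · rcases lt_or_ge E (2 * (m + 2)) with h' | h'
      · obtain ⟨x, rfl⟩ := Nat.exists_eq_add_of_le h
        exact hb x (by omega)
      · exact mid E h' hE
  intro E hE
  rcases lt_or_ge E ((m + 2) * (m + 2)) with h | h
  · exact low E h
  · rcases lt_or_ge E ((m + 3) * (m + 2)) with h' | h'
    · obtain ⟨x, rfl⟩ := Nat.exists_eq_add_of_le h
      have := hn x (by omega)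
      rw [sum_eq_zero, sub_zero] at this
      · exact this
      · intro i hi
        rw [mem_range] at hi
        have b1 : (i + 1) * (m + 3) ≤ m * (m + 3) := Nat.mul_le_mul_right _ (by omega)
        rw [low _ (by omega), mul_zero]
    · obtain ⟨x, rfl⟩ := Nat.exists_eq_add_of_le h'
      exact h1 x (by omega)

theorem arithC (m : ℕ) (ℓ : ℕ → K) (w : K) (hm : 1 ≤ m) (hK : (m : K) + 3 = 0)
    (hw : w = 0 ∨ 3 ≤ m)
    (h1 : ∀ x ≤ m + 1, ℓ ((m + 3) + x) + ∑ i ∈ range (m + 1), ℓ ((i + 1) * (m + 3) + x) = 0)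
    (hj : ∀ k, 1 ≤ k → k ≤ m → ∀ x ≤ m + 1, ℓ (k * (m + 2) + x) = ℓ (k * (m + 2) + x + (m + 3)))
    (hl : ∀ x ≤ m + 1, ℓ ((m + 1) * (m + 2) + x) = 0)
    (h0 : ∀ x ≤ m + 1, ∑ i ∈ range (m + 1), ((i : K) + 2) * ℓ ((i + 1) * (m + 3) + 1 + x)
      + ℓ ((m + 3) + x) - 2 * ℓ ((m + 1) * (m + 3) + x) - ℓ ((m + 2) * (m + 3) + x)
      + 3 * w * ℓ (3 * (m + 3) + x) = 0)
    (h0' : ∑ i ∈ range (m + 1), ((i : K) + 2) * ℓ ((i + 1) * (m + 3))
      + ℓ (m + 2) - 2 * ℓ (m * (m + 3) + (m + 2)) - ℓ ((m + 1) * (m + 3) + (m + 2))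
      + 3 * w * ℓ (2 * (m + 3) + (m + 2)) = 0)
    (hn : ∀ x ≤ m + 1, ∑ i ∈ range (m + 1), ((i : K) + 1) * ℓ (i * (m + 3) + 1 + x)
      + ℓ x - 2 * ℓ (m * (m + 3) + x) - ℓ ((m + 1) * (m + 3) + x)
      + 3 * w * ℓ (2 * (m + 3) + x) = 0) :
    ∀ E, E + 2 ≤ (m + 3) * (m + 3) → ℓ E = 0 := by
  have q0 : m * (m + 3) = m * (m + 2) + m := by ring
  have q1 : (m + 2) * (m + 2) = m * (m + 2) + 2 * (m + 2) := by ring
  have q2 : (m + 3) * (m + 3) = m * (m + 2) + 4 * (m + 2) + 1 := by ring
  have q3 : (m + 1) * (m + 2) = m * (m + 2) + (m + 2) := by ring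
  have q4 : (m + 1) * (m + 3) = m * (m + 2) + m + (m + 3) := by ring
  have q5 : (m + 2) * (m + 3) = m * (m + 2) + m + 2 * (m + 3) := by ring
  have q6 : 3 ≤ m * (m + 2) := by nlinarith
  set τ := ℓ ((m + 1) * (m + 3) + 1) with hτ
  -- Step 1
  have st1 : ∀ r E, E + r = (m + 2) * (m + 2) → 1 ≤ r → m + 2 ≤ E →
      ℓ E = if E % (m + 3) = 1 then τ else 0 := by
    intro r
    induction r using Nat.strong_induction_on with
    | _ r ih =>
      intro E hEr hr hE
      rcases lt_or_ge E ((m + 1) * (m + 2)) with h | h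
      · have e1 : E / (m + 2) * (m + 2) + E % (m + 2) = E := Nat.div_add_mod' E (m + 2)
        have d1 : 1 ≤ E / (m + 2) := (Nat.one_le_div_iff (by omega)).2 hE
        have d2 : E / (m + 2) < m + 1 := (Nat.div_lt_iff_lt_mul (by omega : 0 < m + 2)).2 h
        have d3 := Nat.mod_lt E (by omega : 0 < m + 2)
        have := hj (E / (m + 2)) d1 (by omega) (E % (m + 2)) (by omega)
        rw [e1] at this
        rw [this]
        have hmod : (E + (m + 3)) % (m + 3) = E % (m + 3) := Nat.add_mod_right _ _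
        rcases Nat.lt_or_ge (E + (m + 3)) ((m + 2) * (m + 2)) with h2 | h2
        · rw [ih (r - (m + 3)) (by omega) (E + (m + 3)) (by omega) (by omega) (by omega), hmod]
        · have e2 : E + (m + 3) = (m + 1) * (m + 3) + 1 := by omega
          have e3 : E % (m + 3) = 1 := by
            rw [← hmod, e2, Nat.mul_add_mod_of_lt (by omega)]
          rw [if_pos e3, e2]
      · obtain ⟨x, hx⟩ := Nat.exists_eq_add_of_le h
        have hx' : x ≤ m + 1 := by omega
        rw [hx, hl x hx']
        have : ¬ (((m + 1) * (m + 2) + x) % (m + 3) = 1) := by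
          rcases Nat.lt_or_ge x (m + 1) with h3 | h3
          · have e : (m + 1) * (m + 2) + x = m * (m + 3) + (x + 2) := by
              rw [q0, q3]; omega
            rw [e, Nat.mul_add_mod_of_lt (by omega)]
            omega
          · have e : (m + 1) * (m + 2) + x = (m + 1) * (m + 3) + 0 := by
              rw [q3, q4]; omega
            rw [e, Nat.mul_add_mod_of_lt (by omega)]
            omega
        rw [if_neg this]
  -- Step 2
  have lt1 : ∀ i, i < m → (i + 1) * (m + 3) ≤ m * (m + 3) := fun i hi =>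
    Nat.mul_le_mul_right _ (by omega)
  have lt2 : ∀ i, 1 * (m + 3) ≤ (i + 1) * (m + 3) := fun i => Nat.mul_le_mul_right _ (by omega)
  have lt3 : ∀ i, i < m + 1 → (i + 1) * (m + 3) ≤ (m + 1) * (m + 3) := fun i hi =>
    Nat.mul_le_mul_right _ (by omega)
  have q7 : 1 * (m + 2) ≤ m * (m + 2) := Nat.mul_le_mul_right _ hm
  have st2 : τ = 0 := by
    have := h1 1 (by omega)
    have e1 : ℓ (m + 3 + 1) = τ := by
      rw [st1 ((m + 2) * (m + 2) - (m + 3 + 1)) _ (by omega) (by omega) (by omega)]
      rw [Nat.add_mod_left, Nat.mod_eq_of_lt (by omega), if_pos rfl]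
    have e2 : ∀ i ∈ range (m + 1), ℓ ((i + 1) * (m + 3) + 1) = τ := by
      intro i hi
      rw [mem_range] at hi
      rcases Nat.lt_or_ge i m with h | h
      · have := lt1 i h
        have := lt2 i
        rw [st1 ((m + 2) * (m + 2) - ((i + 1) * (m + 3) + 1)) _ (by omega) (by omega) (by omega)]
        rw [if_pos]
        rw [Nat.mul_add_mod_of_lt (by omega)]
      · have : i = m := by omega
        rw [this]
    rw [e1, sum_congr rfl e2, sum_const, card_range, nsmul_eq_mul] at this
    push_cast at this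
    linear_combination (-1 : K) * this + τ * hK
  have Z0 : ∀ E, m + 2 ≤ E → E ≤ (m + 2) * (m + 2) → ℓ E = 0 := by
    intro E h h'
    rcases Nat.lt_or_ge E ((m + 2) * (m + 2)) with h2 | h2
    · rw [st1 ((m + 2) * (m + 2) - E) E (by omega) (by omega) h, st2]
      simp
    · have : E = (m + 1) * (m + 3) + 1 := by omega
      rw [this]; exact st2
  -- Step 3
  have Z1 : ∀ E, m + 2 ≤ E → E ≤ (m + 1) * (m + 3) + (m + 1) → ℓ E = 0 := by
    intro E h h'
    rcases le_or_gt E ((m + 2) * (m + 2)) with h2 | h2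
    · exact Z0 E h h2
    · obtain ⟨x, hx⟩ := Nat.exists_eq_add_of_le (show (m + 1) * (m + 3) ≤ E by omega)
      have := h1 x (by omega)
      rw [sum_range_succ, sum_eq_zero, Z0 (m + 3 + x) (by omega) (by omega), zero_add, zero_add]
        at this
      · rw [hx]; exact this
      · intro i hi
        rw [mem_range] at hi
        have := lt1 i hi
        have := lt2 i
        exact Z0 _ (by omega) (by omega)
  have W : ∀ E, (3 ≤ m → m + 2 ≤ E ∧ E ≤ (m + 1) * (m + 3) + (m + 1)) → 3 * w * ℓ E = 0 := by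
    intro E hE
    rcases hw with hw | hw
    · rw [hw]; ring
    · rw [Z1 E (hE hw).1 (hE hw).2, mul_zero]
  have hm3 : 3 ≤ m → 3 * (m + 3) ≤ m * (m + 3) := fun h => Nat.mul_le_mul_right _ h
  -- Step 4
  have st4 : ∀ x ≤ m, ℓ ((m + 2) * (m + 3) + x) = 0 := by
    intro x hx
    have := h0 x (by omega)
    rw [sum_eq_zero, Z1 (m + 3 + x) (by omega) (by omega),
      Z1 ((m + 1) * (m + 3) + x) (by omega) (by omega),
      W (3 * (m + 3) + x) (fun h => by have := hm3 h; omega)] at this
    · linear_combination (-1 : K) * this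
    · intro i hi
      rw [mem_range] at hi
      have := lt3 i hi
      have := lt2 i
      rw [Z1 _ (by omega) (by omega), mul_zero]
  have st4' : ℓ ((m + 1) * (m + 3) + (m + 2)) = 0 := by
    have := h0'
    rw [sum_eq_zero, Z1 (m + 2) (by omega) (by omega),
      Z1 (m * (m + 3) + (m + 2)) (by omega) (by omega),
      W (2 * (m + 3) + (m + 2)) (fun h => by have := hm3 h; omega)] at this
    · linear_combination (-1 : K) * this
    · intro i hi
      rw [mem_range] at hi
      have := lt3 i hi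
      have := lt2 i
      rw [Z1 _ (by omega) (by omega), mul_zero]
  have st4'' : ℓ ((m + 2) * (m + 3) + (m + 1)) = 0 := by
    have := h0 (m + 1) le_rfl
    rw [sum_range_succ, sum_eq_zero, Z1 (m + 3 + (m + 1)) (by omega) (by omega),
      Z1 ((m + 1) * (m + 3) + (m + 1)) (by omega) (by omega),
      W (3 * (m + 3) + (m + 1)) (fun h => by have := hm3 h; omega),
      show (m + 1) * (m + 3) + 1 + (m + 1) = (m + 1) * (m + 3) + (m + 2) by ring, st4'] at this
    · linear_combination (-1 : K) * this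
    · intro i hi
      rw [mem_range] at hi
      have := lt1 i hi
      have := lt2 i
      rw [Z1 _ (by omega) (by omega), mul_zero]
  have Z2 : ∀ E, m + 2 ≤ E → E ≤ (m + 2) * (m + 3) + (m + 1) → ℓ E = 0 := by
    intro E h h'
    rcases le_or_gt E ((m + 1) * (m + 3) + (m + 1)) with h2 | h2
    · exact Z1 E h h2
    · rcases Nat.lt_or_ge E ((m + 2) * (m + 3)) with h3 | h3
      · have : E = (m + 1) * (m + 3) + (m + 2) := by omega
        rw [this]; exact st4'
      · obtain ⟨x, hx⟩ := Nat.exists_eq_add_of_le h3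
        rcases le_or_gt x m with h4 | h4
        · rw [hx]; exact st4 x h4
        · have : x = m + 1 := by omega
          rw [hx, this]; exact st4''
  -- Step 5
  have low : ∀ r x, x + r = m + 2 → ℓ x = 0 := by
    intro r
    induction r with
    | zero => intro x hx; exact Z2 x (by omega) (by omega)
    | succ r ih =>
      intro x hx
      have := hn x (by omega)
      rw [sum_range_succ', sum_eq_zero, Z2 (m * (m + 3) + x) (by omega) (by omega),
        Z2 ((m + 1) * (m + 3) + x) (by omega) (by omega),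
        W (2 * (m + 3) + x) (fun h => by have := hm3 h; omega)] at this
      · have e : 0 * (m + 3) + 1 + x = x + 1 := by ring
        rw [e, ih (x + 1) (by omega)] at this
        linear_combination this
      · intro i hi
        rw [mem_range] at hi
        have := lt1 i hi
        have := lt2 i
        rw [Z2 _ (by omega) (by omega), mul_zero]
  intro E hE
  rcases Nat.lt_or_ge E (m + 2) with h | h
  · exact low (m + 2 - E) E (by omega)
  · exact Z2 E h (by omega)

end U199.SRC
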