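import Mathlib
import Pool.Agent.U199.SRC.Base
import Pool.Agent.U199.SRC.Arith

/-! The first family: characteristic `p` with `p ∤ n` and `p ∤ n - 1`. -/

set_option autoImplicit false

namespace U199.SRC

open MvPolynomial Finset

/-- `∑_{i=1}^{n-1} (x_i^n - x_0^{n-i} x_n^i)`, `n = m + 2` -/
noncomputable def FA (R : Type*) [CommRing R] (m : ℕ) : MvPolynomial (Fin (m + 2 + 1)) R :=
  ∑ i ∈ range (m + 1), (X (ix (m + 2) (i + 1)) ^ (m + 2)
    - X (ix (m + 2) 0) ^ (m + 1 - i) * X (ix (m + 2) (m + 2)) ^ (i + 1))

lemma dd_FA {R A : Type*} [CommRing R] [CommRing A] [Algebra R A] (m : ℕ)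
    (x y : Fin (m + 2 + 1) → A) :
    dd (FA R m) x y = ∑ i ∈ range (m + 1),
      (((m : A) + 2) * x (ix (m + 2) (i + 1)) ^ (m + 1) * y (ix (m + 2) (i + 1))
      - (((m + 1 - i : ℕ) : A) * x (ix (m + 2) 0) ^ (m - i) * y (ix (m + 2) 0)
            * x (ix (m + 2) (m + 2)) ^ (i + 1)
          + x (ix (m + 2) 0) ^ (m + 1 - i) * (((i : A) + 1) * x (ix (m + 2) (m + 2)) ^ i
            * y (ix (m + 2) (m + 2))))) := by
  rw [FA, dd_sum]
  refine sum_congr rfl fun i hi => ?_
  simp only [dd_sub, dd_mul, dd_pow, dd_X, map_pow, aeval_X]
  rw [show m + 1 - i - 1 = m - i by omega, show m + 2 - 1 = m + 1 by omega,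
    show i + 1 - 1 = i by omega]
  push_cast
  ring

lemma hom_FA {R : Type*} [CommRing R] (m : ℕ) : (FA R m).IsHomogeneous (m + 2) := by
  apply IsHomogeneous.sum
  intro i hi
  rw [mem_range] at hi
  apply IsHomogeneous.sub
  · exact isHomogeneous_X_pow _ _
  · convert (isHomogeneous_X_pow (R := R) (ix (m + 2) 0) (m + 1 - i)).mul
      (isHomogeneous_X_pow (R := R) (ix (m + 2) (m + 2)) (i + 1)) using 1
    omega

/-- two geometric sums -/
lemma geomQ {A : Type*} [CommRing A] (m : ℕ) (a b : A) :
    (b - a) * ∑ i ∈ range (m + 1), ((i : A) + 1) * (a ^ (m - i) * b ^ i)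
      = ((m : A) + 1) * b ^ (m + 1) - a * ∑ i ∈ range (m + 1), a ^ (m - i) * b ^ i := by
  induction m with
  | zero => simp
  | succ m ih =>
    have e1 : ∑ i ∈ range (m + 1), ((i : A) + 1) * (a ^ (m + 1 - i) * b ^ i)
        = a * ∑ i ∈ range (m + 1), ((i : A) + 1) * (a ^ (m - i) * b ^ i) := by
      rw [mul_sum]
      refine sum_congr rfl fun i hi => ?_
      rw [mem_range] at hi
      rw [show m + 1 - i = (m - i) + 1 by omega]; ring
    have e2 : ∑ i ∈ range (m + 1), a ^ (m + 1 - i) * b ^ i
        = a * ∑ i ∈ range (m + 1), a ^ (m - i) * b ^ i := by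
      rw [mul_sum]
      refine sum_congr rfl fun i hi => ?_
      rw [mem_range] at hi
      rw [show m + 1 - i = (m - i) + 1 by omega]; ring
    rw [sum_range_succ, sum_range_succ _ (m + 1), e1, e2]
    simp only [Nat.sub_self, pow_zero, one_mul]
    push_cast
    linear_combination a * ih

theorem good_FA {p : ℕ} [Fact p.Prime] {K : Type*} [Field K] [Algebra (ZMod p) K] (m : ℕ)
    (h1 : ((m : K) + 2) ≠ 0) (h2 : ((m : K) + 1) ≠ 0) (hp : ¬ p ∣ m + 2) :
    Good K p (m + 2) (m + 2) (FA (ZMod p) m) where
  hom := hom_FA m
  smooth := by
    intro x hx _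
    have H : ∀ y, dd (FA (ZMod p) m) x y = 0 := fun y => dd_eq_zero _ _ _ hx
    set x' : ℕ → K := fun i => x (ix (m + 2) i) with hx'
    -- middle
    have mid : ∀ j, 1 ≤ j → j ≤ m + 1 → x' j = 0 := by
      intro j hj1 hj2
      have := H (Pi.single (ix (m + 2) j) 1)
      rw [dd_FA, sum_eq_single (j - 1)] at this
      · rw [show j - 1 + 1 = j by omega, single_ix (by omega) (by omega),
          single_ix (by omega) (by omega), single_ix (by omega) (by omega),
          if_pos rfl, if_neg (by omega), if_neg (by omega)] at this
        simp only [mul_one, mul_zero, zero_mul, add_zero, sub_zero] at this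
        exact pow_eq_zero_iff (by omega : m + 1 ≠ 0) |>.1 ((mul_eq_zero.1 this).resolve_left h1)
      · intro i hi hij
        rw [mem_range] at hi
        rw [single_ix (by omega) (by omega),
          single_ix (by omega) (by omega), single_ix (by omega) (by omega),
          if_neg (by omega), if_neg (by omega), if_neg (by omega)]
        simp
      · intro h
        exact absurd (mem_range.2 (by omega)) h
    set a := x' 0 with ha
    set b := x' (m + 2) with hb
    have P0 : ∑ i ∈ range (m + 1), (((m + 1 - i : ℕ) : K) * a ^ (m - i) * b ^ (i + 1)) = 0 := by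
      have := H (Pi.single (ix (m + 2) 0) 1)
      rw [dd_FA] at this
      rw [← neg_eq_zero, ← this, ← sum_neg_distrib]
      refine sum_congr rfl fun i hi => ?_
      rw [mem_range] at hi
      rw [single_ix (by omega) (by omega),
          single_ix (by omega) (by omega), single_ix (by omega) (by omega),
          if_neg (by omega), if_pos rfl, if_neg (by omega)]
      ring
    have Pn : ∑ i ∈ range (m + 1), (a ^ (m + 1 - i) * (((i : K) + 1) * b ^ i)) = 0 := by
      have := H (Pi.single (ix (m + 2) (m + 2)) 1)
      rw [dd_FA] at this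
      rw [← neg_eq_zero, ← this, ← sum_neg_distrib]
      refine sum_congr rfl fun i hi => ?_
      rw [mem_range] at hi
      rw [single_ix (by omega) (by omega),
          single_ix (by omega) (by omega), single_ix (by omega) (by omega),
          if_neg (by omega), if_pos rfl, if_neg (by omega)]
      ring
    have hab : a = 0 ∧ b = 0 := by
      rcases eq_or_ne a 0 with h0 | h0
      · refine ⟨h0, ?_⟩
        rw [sum_range_succ, sum_eq_zero] at P0
        · simpa using P0
        · intro i hi
          rw [mem_range] at hi
          rw [h0, zero_pow (by omega : m - i ≠ 0)]; ring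
      · exfalso
        rcases eq_or_ne b 0 with h0' | h0'
        · rw [sum_range_succ', sum_eq_zero] at Pn
          · simp [h0] at Pn
          · intro i hi
            rw [h0', zero_pow (by omega : i + 1 ≠ 0)]; ring
        · set S := ∑ i ∈ range (m + 1), a ^ (m - i) * b ^ i with hS
          set Q := ∑ i ∈ range (m + 1), ((i : K) + 1) * (a ^ (m - i) * b ^ i) with hQ
          have e1 : a * Q = 0 := by
            rw [← Pn, hQ, mul_sum]
            refine sum_congr rfl fun i hi => ?_
            rw [mem_range] at hi
            rw [show m + 1 - i = (m - i) + 1 by omega]; ring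
          have e2 : ((m : K) + 2) * b * S = Q * b + ∑ i ∈ range (m + 1),
              (((m + 1 - i : ℕ) : K) * a ^ (m - i) * b ^ (i + 1)) := by
            rw [hS, hQ, mul_sum, sum_mul, ← sum_add_distrib]
            refine sum_congr rfl fun i hi => ?_
            rw [mem_range] at hi
            rw [Nat.cast_sub (by omega)]
            push_cast
            ring
          have hQ0 : Q = 0 := (mul_eq_zero.1 e1).resolve_left h0
          rw [P0, hQ0, zero_mul, zero_add] at e2
          have hS0 : S = 0 := by
            rcases mul_eq_zero.1 e2 with h | h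
            · exact absurd h (mul_ne_zero h1 h0')
            · exact h
          have e3 := geomQ m a b
          rw [← hQ, ← hS, hQ0, hS0] at e3
          simp only [mul_zero, sub_zero] at e3
          exact (mul_ne_zero h2 (pow_ne_zero _ h0')) e3.symm
    funext i
    have hi : x i = x' i := by rw [hx']; simp only; rw [ix_self]
    rw [hi]
    rcases Nat.lt_or_ge (i : ℕ) 1 with h | h
    · have : (i : ℕ) = 0 := by omega
      rw [this]; exact hab.1
    · rcases Nat.lt_or_ge (i : ℕ) (m + 2) with h' | h'
      · exact mid i h (by omega)
      · have : (i : ℕ) = m + 2 := by omega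
        rw [this]; exact hab.2
  onX := by
    rw [FA, map_sum]
    apply sum_eq_zero
    intro i hi
    rw [mem_range] at hi
    simp only [map_sub, map_pow, map_mul, aeval_X]
    rw [ratNormal_ix K (by omega), ratNormal_ix K (by omega), ratNormal_ix K (by omega)]
    rw [sub_eq_zero, Nat.sub_zero, Nat.sub_self, pow_zero, pow_zero, one_mul, mul_one,
      mul_pow, ← pow_mul, ← pow_mul, ← pow_mul, ← pow_mul]
    rw [show m + 2 - (i + 1) = m + 1 - i by omega]
    rw [Nat.mul_comm (m + 2) (m + 1 - i), Nat.mul_comm (m + 2) (i + 1)]
  span := by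
    intro ℓ hℓ _
    have Hd : ∀ j, j ≤ m + 2 → ∀ x, x + 2 ≤ m + 2 →
        ℓ (dd (FA (ZMod p) m) (cv K (m + 2) (m + 2))
          (Pi.single (ix (m + 2) j) (Polynomial.X ^ x))) = 0 := by
      intro j hj x hx
      rw [dd_single]
      exact hℓ _ x hx
    apply arithA m (fun E => ℓ (Polynomial.X ^ E))
    · intro j hj1 hj2 x hx
      have := Hd j (by omega) x (by omega)
      rw [dd_FA, sum_eq_single (j - 1)] at this
      · rw [show j - 1 + 1 = j by omega, single_ix (by omega) (by omega),
          single_ix (by omega) (by omega), single_ix (by omega) (by omega),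
          if_pos rfl, if_neg (by omega), if_neg (by omega), cv_ix K (by omega)] at this
        simp only [mul_zero, zero_mul, add_zero, sub_zero] at this
        have e : ((m : Polynomial K) + 2) * (Polynomial.X ^ j) ^ (m + 1) * Polynomial.X ^ x
            = ((m + 2 : ℕ) : Polynomial K) * Polynomial.X ^ (j * (m + 1) + x) := by
          push_cast; ring
        rw [e, lin_nat] at this
        push_cast at this
        exact (mul_eq_zero.1 this).resolve_left h1
      · intro i hi hij
        rw [mem_range] at hi
        rw [single_ix (by omega) (by omega),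
          single_ix (by omega) (by omega), single_ix (by omega) (by omega),
          if_neg (by omega), if_neg (by omega), if_neg (by omega)]
        simp
      · intro h
        exact absurd (mem_range.2 (by omega)) h
    · intro x hx
      have := Hd 0 (by omega) x (by omega)
      rw [dd_FA, map_sum] at this
      rw [← neg_eq_zero, ← this, ← sum_neg_distrib]
      refine sum_congr rfl fun i hi => ?_
      rw [mem_range] at hi
      rw [single_ix (by omega) (by omega),
          single_ix (by omega) (by omega), single_ix (by omega) (by omega),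
          if_neg (by omega), if_pos rfl, if_neg (by omega), cv_ix K (by omega),
          cv_ix K (by omega), cv_ix K (by omega)]
      simp only [mul_zero, pow_zero, one_pow, mul_one, add_zero, zero_sub, map_neg, neg_inj]
      have e : ((m + 1 - i : ℕ) : Polynomial K) * Polynomial.X ^ x
          * (Polynomial.X ^ (m + 2)) ^ (i + 1)
          = ((m + 1 - i : ℕ) : Polynomial K) * Polynomial.X ^ ((i + 1) * (m + 2) + x) := by
        ring
      rw [e, lin_nat, Nat.cast_sub (by omega)]
      push_cast
      ring
    · intro x hx
      have := Hd (m + 2) (by omega) x (by omega)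
      rw [dd_FA, map_sum] at this
      rw [← neg_eq_zero, ← this, ← sum_neg_distrib]
      refine sum_congr rfl fun i hi => ?_
      rw [mem_range] at hi
      rw [single_ix (by omega) (by omega),
          single_ix (by omega) (by omega), single_ix (by omega) (by omega),
          if_neg (by omega), if_pos rfl, if_neg (by omega), cv_ix K (by omega),
          cv_ix K (by omega), cv_ix K (by omega)]
      simp only [mul_zero, zero_mul, pow_zero, one_pow, one_mul, zero_add, zero_sub, map_neg,
        neg_inj]
      have e : ((i : Polynomial K) + 1) * (Polynomial.X ^ (m + 2)) ^ i * Polynomial.X ^ x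
          = ((i + 1 : ℕ) : Polynomial K) * Polynomial.X ^ (i * (m + 2) + x) := by
        push_cast; ring
      rw [e, lin_nat]
      push_cast
      ring
  hyp := fun h => absurd h hp

end U199.SRC
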