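import Mathlib
import Pool.Agent.U199.SRC.Base
import Pool.Agent.U199.SRC.Arith

/-! The second family: characteristic `p` with `p ∣ n - 1`, `n = m + 3`. -/

set_option autoImplicit false

namespace U199.SRC

open MvPolynomial Finset

/-- `α (x_1^{n-1} x_0 - x_0^{n-1} x_{n-1}) + (x_{n-1}^{n-1} x_n - x_n^{n-1} x_1)
  + ∑_{i=2}^{n-2} (x_i^n - x_0^{n-i} x_n^i)`, `n = m + 3` -/
noncomputable def FB (R : Type*) [CommRing R] (m : ℕ) (α : ℤ) :
    MvPolynomial (Fin (m + 3 + 1)) R :=
  (α : MvPolynomial (Fin (m + 3 + 1)) R) *
      (X (ix (m + 3) 1) ^ (m + 2) * X (ix (m + 3) 0)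
        - X (ix (m + 3) 0) ^ (m + 2) * X (ix (m + 3) (m + 2)))
  + (X (ix (m + 3) (m + 2)) ^ (m + 2) * X (ix (m + 3) (m + 3))
        - X (ix (m + 3) (m + 3)) ^ (m + 2) * X (ix (m + 3) 1))
  + ∑ i ∈ range m, (X (ix (m + 3) (i + 2)) ^ (m + 3)
    - X (ix (m + 3) 0) ^ (m + 1 - i) * X (ix (m + 3) (m + 3)) ^ (i + 2))

lemma dd_FB {R A : Type*} [CommRing R] [CommRing A] [Algebra R A] (m : ℕ) (α : ℤ)
    (hA : (m : A) + 2 = 0) (x y : Fin (m + 3 + 1) → A) :
    dd (FB R m α) x y =
      (α : A) * (x (ix (m + 3) 1) ^ (m + 2) * y (ix (m + 3) 0)
        - x (ix (m + 3) 0) ^ (m + 2) * y (ix (m + 3) (m + 2)))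
      + (x (ix (m + 3) (m + 2)) ^ (m + 2) * y (ix (m + 3) (m + 3))
        - x (ix (m + 3) (m + 3)) ^ (m + 2) * y (ix (m + 3) 1))
      + ∑ i ∈ range m,
      (x (ix (m + 3) (i + 2)) ^ (m + 2) * y (ix (m + 3) (i + 2))
      - (((m + 1 - i : ℕ) : A) * x (ix (m + 3) 0) ^ (m - i) * y (ix (m + 3) 0)
            * x (ix (m + 3) (m + 3)) ^ (i + 2)
          + x (ix (m + 3) 0) ^ (m + 1 - i) * (((i : A) + 2) * x (ix (m + 3) (m + 3)) ^ (i + 1)
            * y (ix (m + 3) (m + 3))))) := by
  have e0 : ((m + 2 : ℕ) : A) = 0 := by push_cast; exact hA
  have e1 : ((m + 3 : ℕ) : A) = 1 := by push_cast; linear_combination hA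
  rw [FB, dd_add, dd_add, dd_sum, dd_mul, dd_intCast, dd_sub, dd_sub, dd_mul, dd_mul, dd_mul,
    dd_mul, dd_pow, dd_pow, dd_pow, dd_pow, e0]
  simp only [dd_X, map_pow, aeval_X, map_intCast]
  congr 1
  · ring
  · refine sum_congr rfl fun i hi => ?_
    rw [mem_range] at hi
    rw [dd_sub, dd_mul, dd_pow, dd_pow, dd_pow, e1]
    simp only [dd_X, map_pow, aeval_X]
    rw [show m + 1 - i - 1 = m - i by omega, show m + 3 - 1 = m + 2 by omega,
      show i + 2 - 1 = i + 1 by omega]
    push_cast
    ring

lemma hom_FB {R : Type*} [CommRing R] (m : ℕ) (α : ℤ) : (FB R m α).IsHomogeneous (m + 3) := by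
  have hX : ∀ (i : Fin (m + 3 + 1)) (k : ℕ),
      (X i ^ k : MvPolynomial (Fin (m + 3 + 1)) R).IsHomogeneous k :=
    fun i k => isHomogeneous_X_pow _ _
  have hX1 : ∀ (i : Fin (m + 3 + 1)),
      (X i : MvPolynomial (Fin (m + 3 + 1)) R).IsHomogeneous 1 :=
    fun i => isHomogeneous_X _ _
  apply IsHomogeneous.add
  · apply IsHomogeneous.add
    · have : (α : MvPolynomial (Fin (m + 3 + 1)) R) = C (α : R) := by simp
      rw [this]
      apply IsHomogeneous.C_mul
      exact ((hX _ _).mul (hX1 _)).sub ((hX _ _).mul (hX1 _))
    · exact ((hX _ _).mul (hX1 _)).sub ((hX _ _).mul (hX1 _))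
  · apply IsHomogeneous.sum
    intro i hi
    rw [mem_range] at hi
    apply IsHomogeneous.sub
    · exact hX _ _
    · convert (hX (ix (m + 3) 0) (m + 1 - i)).mul (hX (ix (m + 3) (m + 3)) (i + 2)) using 1
      omega

theorem good_FB {p : ℕ} [Fact p.Prime] {K : Type*} [Field K] [Algebra (ZMod p) K] (m : ℕ) (α : ℤ)
    (hK : (m : K) + 2 = 0) (hα : (α : K) ≠ 0) (hα' : (α : K) ≠ 4) (hp : ¬ p ∣ m + 3) :
    Good K p (m + 3) (m + 3) (FB (ZMod p) m α) where
  hom := hom_FB m α
  smooth := by
    intro x hx _
    have H : ∀ y, dd (FB (ZMod p) m α) x y = 0 := fun y => dd_eq_zero _ _ _ hx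
    set x' : ℕ → K := fun i => x (ix (m + 3) i) with hx'
    -- middle
    have mid : ∀ j, 2 ≤ j → j ≤ m + 1 → x' j = 0 := by
      intro j hj1 hj2
      have := H (Pi.single (ix (m + 3) j) 1)
      rw [dd_FB m α hK, sum_eq_single (j - 2)] at this
      · rw [show j - 2 + 2 = j by omega, single_ix (by omega) (by omega),
          single_ix (by omega) (by omega), single_ix (by omega) (by omega),
          single_ix (by omega) (by omega), single_ix (by omega) (by omega),
          if_neg (by omega), if_neg (by omega), if_neg (by omega), if_neg (by omega),
          if_pos rfl] at this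
        simp only [mul_one, mul_zero, zero_mul, add_zero, sub_zero, zero_add] at this
        exact pow_eq_zero_iff (by omega : m + 2 ≠ 0) |>.1 this
      · intro i hi hij
        rw [mem_range] at hi
        rw [single_ix (by omega) (by omega),
          single_ix (by omega) (by omega), single_ix (by omega) (by omega),
          if_neg (by omega), if_neg (by omega), if_neg (by omega)]
        simp
      · intro h
        exact absurd (mem_range.2 (by omega)) h
    have hb : x' (m + 3) = 0 := by
      have := H (Pi.single (ix (m + 3) 1) 1)
      rw [dd_FB m α hK, sum_eq_zero] at this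
      · rw [single_ix (by omega) (by omega), single_ix (by omega) (by omega),
          single_ix (by omega) (by omega), single_ix (by omega) (by omega),
          if_neg (by omega), if_neg (by omega), if_neg (by omega), if_pos rfl] at this
        simp only [mul_one, mul_zero, add_zero, sub_zero, zero_add, zero_sub,
          neg_eq_zero] at this
        exact pow_eq_zero_iff (by omega : m + 2 ≠ 0) |>.1 this
      · intro i hi
        rw [mem_range] at hi
        rw [single_ix (by omega) (by omega),
          single_ix (by omega) (by omega), single_ix (by omega) (by omega),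
          if_neg (by omega), if_neg (by omega), if_neg (by omega)]
        simp
    have ha : x' 0 = 0 := by
      have := H (Pi.single (ix (m + 3) (m + 2)) 1)
      rw [dd_FB m α hK, sum_eq_zero] at this
      · rw [single_ix (by omega) (by omega), single_ix (by omega) (by omega),
          single_ix (by omega) (by omega), single_ix (by omega) (by omega),
          if_neg (by omega), if_pos rfl, if_neg (by omega), if_neg (by omega)] at this
        simp only [mul_one, mul_zero, add_zero, sub_zero, zero_sub,
          mul_neg, neg_eq_zero] at this
        exact pow_eq_zero_iff (by omega : m + 2 ≠ 0) |>.1 ((mul_eq_zero.1 this).resolve_left hα)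
      · intro i hi
        rw [mem_range] at hi
        rw [single_ix (by omega) (by omega),
          single_ix (by omega) (by omega), single_ix (by omega) (by omega),
          if_neg (by omega), if_neg (by omega), if_neg (by omega)]
        simp
    have ha' : x (ix (m + 3) 0) = 0 := ha
    have hb' : x (ix (m + 3) (m + 3)) = 0 := hb
    have h1 : x' 1 = 0 := by
      have := H (Pi.single (ix (m + 3) 0) 1)
      rw [dd_FB m α hK, sum_eq_zero] at this
      · rw [single_ix (by omega) (by omega), single_ix (by omega) (by omega),
          single_ix (by omega) (by omega), single_ix (by omega) (by omega),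
          if_pos rfl, if_neg (by omega), if_neg (by omega), if_neg (by omega)] at this
        simp only [mul_one, mul_zero, add_zero, sub_zero] at this
        exact pow_eq_zero_iff (by omega : m + 2 ≠ 0) |>.1 ((mul_eq_zero.1 this).resolve_left hα)
      · intro i hi
        rw [mem_range] at hi
        rw [single_ix (by omega) (by omega),
          single_ix (by omega) (by omega), single_ix (by omega) (by omega),
          if_neg (by omega), if_pos rfl, if_neg (by omega), hb', zero_pow (by omega : i + 2 ≠ 0)]
        ring
    have h2 : x' (m + 2) = 0 := by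
      have := H (Pi.single (ix (m + 3) (m + 3)) 1)
      rw [dd_FB m α hK, sum_eq_zero] at this
      · rw [single_ix (by omega) (by omega), single_ix (by omega) (by omega),
          single_ix (by omega) (by omega), single_ix (by omega) (by omega),
          if_neg (by omega), if_neg (by omega), if_pos rfl, if_neg (by omega)] at this
        simp only [mul_one, mul_zero, add_zero, sub_zero, zero_add] at this
        exact pow_eq_zero_iff (by omega : m + 2 ≠ 0) |>.1 this
      · intro i hi
        rw [mem_range] at hi
        rw [single_ix (by omega) (by omega),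
          single_ix (by omega) (by omega), single_ix (by omega) (by omega),
          if_neg (by omega), if_neg (by omega), if_pos rfl, hb', zero_pow (by omega : i + 1 ≠ 0)]
        ring
    funext i
    have hi : x i = x' i := by rw [hx']; simp only; rw [ix_self]
    rw [hi]
    obtain h | h | h | h | h : (i : ℕ) = 0 ∨ (i : ℕ) = 1 ∨ (2 ≤ (i : ℕ) ∧ (i : ℕ) ≤ m + 1) ∨
        (i : ℕ) = m + 2 ∨ (i : ℕ) = m + 3 := by omega
    · rw [h]; exact ha
    · rw [h]; exact h1
    · exact mid _ h.1 h.2
    · rw [h]; exact h2
    · rw [h]; exact hb
  onX := by
    rw [FB, map_add, map_add, map_mul, map_sub, map_sub, map_sum, sum_eq_zero]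
    · simp only [map_pow, map_mul, aeval_X]
      rw [ratNormal_ix K (by omega), ratNormal_ix K (by omega), ratNormal_ix K (by omega), ratNormal_ix K (by omega)]
      rw [show m + 3 - 0 = m + 3 by omega, show m + 3 - 1 = m + 2 by omega,
        show m + 3 - (m + 2) = 1 by omega, show m + 3 - (m + 3) = 0 by omega]
      ring
    · intro i hi
      rw [mem_range] at hi
      simp only [map_sub, map_pow, map_mul, aeval_X]
      rw [ratNormal_ix K (by omega), ratNormal_ix K (by omega), ratNormal_ix K (by omega)]
      rw [sub_eq_zero, Nat.sub_zero, Nat.sub_self, pow_zero, pow_zero, one_mul, mul_one,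
        mul_pow, ← pow_mul, ← pow_mul, ← pow_mul, ← pow_mul]
      rw [show m + 3 - (i + 2) = m + 1 - i by omega]
      rw [Nat.mul_comm (m + 3) (m + 1 - i), Nat.mul_comm (m + 3) (i + 2)]
  span := by
    intro ℓ hℓ _
    have hKX : (m : Polynomial K) + 2 = 0 := by
      have := congrArg (Polynomial.C) hK
      rwa [map_add, map_natCast, map_ofNat, map_zero] at this
    have Hd : ∀ j, j ≤ m + 3 → ∀ x, x + 2 ≤ m + 3 →
        ℓ (dd (FB (ZMod p) m α) (cv K (m + 3) (m + 3))
          (Pi.single (ix (m + 3) j) (Polynomial.X ^ x))) = 0 := by
      intro j hj x hx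
      rw [dd_single]
      exact hℓ _ x hx
    apply arithB m (fun E => ℓ (Polynomial.X ^ E)) (α : K) hα hα'
    · intro x hx
      have := Hd 1 (by omega) x (by omega)
      rw [dd_FB m α hKX, sum_eq_zero] at this
      · rw [single_ix (by omega) (by omega), single_ix (by omega) (by omega),
          single_ix (by omega) (by omega), single_ix (by omega) (by omega),
          if_neg (by omega), if_neg (by omega), if_neg (by omega), if_pos rfl,
          cv_ix K (by omega), cv_ix K (by omega), cv_ix K (by omega), cv_ix K (by omega)] at this
        simp only [mul_zero, add_zero, sub_zero, zero_add, zero_sub, map_neg,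
          neg_eq_zero] at this
        rw [← pow_mul, ← pow_add] at this
        exact this
      · intro i hi
        rw [mem_range] at hi
        rw [single_ix (by omega) (by omega),
          single_ix (by omega) (by omega), single_ix (by omega) (by omega),
          if_neg (by omega), if_neg (by omega), if_neg (by omega)]
        simp
    · intro x hx
      have := Hd (m + 2) (by omega) x (by omega)
      rw [dd_FB m α hKX, sum_eq_zero] at this
      · rw [single_ix (by omega) (by omega), single_ix (by omega) (by omega),
          single_ix (by omega) (by omega), single_ix (by omega) (by omega),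
          if_neg (by omega), if_pos rfl, if_neg (by omega), if_neg (by omega),
          cv_ix K (by omega), cv_ix K (by omega), cv_ix K (by omega), cv_ix K (by omega)] at this
        simp only [mul_zero, add_zero, sub_zero, zero_sub, pow_zero, one_pow, one_mul,
          mul_neg, map_neg, neg_eq_zero] at this
        rw [lin_int] at this
        exact (mul_eq_zero.1 this).resolve_left hα
      · intro i hi
        rw [mem_range] at hi
        rw [single_ix (by omega) (by omega),
          single_ix (by omega) (by omega), single_ix (by omega) (by omega),
          if_neg (by omega), if_neg (by omega), if_neg (by omega)]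
        simp
    · intro j hj1 hj2 x hx
      have := Hd j (by omega) x (by omega)
      rw [dd_FB m α hKX, sum_eq_single (j - 2)] at this
      · rw [show j - 2 + 2 = j by omega, single_ix (by omega) (by omega),
          single_ix (by omega) (by omega), single_ix (by omega) (by omega),
          single_ix (by omega) (by omega), single_ix (by omega) (by omega),
          if_neg (by omega), if_neg (by omega), if_neg (by omega), if_neg (by omega),
          if_pos rfl, cv_ix K (show j ≤ m + 3 by omega)] at this
        simp only [mul_zero, zero_mul, add_zero, sub_zero, zero_add] at this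
        rw [← pow_mul, ← pow_add] at this
        exact this
      · intro i hi hij
        rw [mem_range] at hi
        rw [single_ix (by omega) (by omega),
          single_ix (by omega) (by omega), single_ix (by omega) (by omega),
          if_neg (by omega), if_neg (by omega), if_neg (by omega)]
        simp
      · intro h
        exact absurd (mem_range.2 (by omega)) h
    · intro x hx
      have := Hd 0 (by omega) x (by omega)
      rw [dd_FB m α hKX, map_add, map_sum] at this
      rw [← this, sub_eq_add_neg, ← sum_neg_distrib]
      congr 1
      · rw [single_ix (by omega) (by omega), single_ix (by omega) (by omega),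
          single_ix (by omega) (by omega), single_ix (by omega) (by omega),
          if_pos rfl, if_neg (by omega), if_neg (by omega), if_neg (by omega),
          cv_ix K (by omega), cv_ix K (by omega), cv_ix K (by omega), cv_ix K (by omega)]
        simp only [mul_zero, add_zero, sub_zero, pow_one]
        rw [lin_int, ← pow_add]
      · refine sum_congr rfl fun i hi => ?_
        rw [mem_range] at hi
        rw [single_ix (by omega) (by omega),
            single_ix (by omega) (by omega), single_ix (by omega) (by omega),
            if_neg (by omega), if_pos rfl, if_neg (by omega), cv_ix K (by omega),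
            cv_ix K (by omega), cv_ix K (by omega)]
        simp only [mul_zero, pow_zero, one_pow, mul_one, add_zero, zero_sub, map_neg, neg_inj]
        have e : ((m + 1 - i : ℕ) : Polynomial K) * Polynomial.X ^ x
            * (Polynomial.X ^ (m + 3)) ^ (i + 2)
            = ((m + 1 - i : ℕ) : Polynomial K) * Polynomial.X ^ ((i + 2) * (m + 3) + x) := by
          ring
        rw [e, lin_nat, Nat.cast_sub (by omega)]
        push_cast
        ring
    · intro x hx
      have := Hd (m + 3) (by omega) x (by omega)
      rw [dd_FB m α hKX, map_add, map_sum] at this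
      rw [← this, sub_eq_add_neg, ← sum_neg_distrib]
      congr 1
      · rw [single_ix (by omega) (by omega), single_ix (by omega) (by omega),
          single_ix (by omega) (by omega), single_ix (by omega) (by omega),
          if_neg (by omega), if_neg (by omega), if_pos rfl, if_neg (by omega),
          cv_ix K (by omega), cv_ix K (by omega), cv_ix K (by omega), cv_ix K (by omega)]
        simp only [mul_zero, sub_zero, zero_add]
        rw [← pow_mul, ← pow_add]
      · refine sum_congr rfl fun i hi => ?_
        rw [mem_range] at hi
        rw [single_ix (by omega) (by omega),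
            single_ix (by omega) (by omega), single_ix (by omega) (by omega),
            if_neg (by omega), if_neg (by omega), if_pos rfl, cv_ix K (by omega),
            cv_ix K (by omega), cv_ix K (by omega)]
        simp only [mul_zero, zero_mul, pow_zero, one_pow, one_mul, zero_add, zero_sub, map_neg,
          neg_inj]
        have e : ((i : Polynomial K) + 2) * (Polynomial.X ^ (m + 3)) ^ (i + 1) * Polynomial.X ^ x
            = ((i + 2 : ℕ) : Polynomial K) * Polynomial.X ^ ((i + 1) * (m + 3) + x) := by
          push_cast; ring
        rw [e, lin_nat]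
        push_cast
        ring
  hyp := fun h => absurd h hp

end U199.SRC
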