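import Mathlib
import Pool.Agent.U199.SRC.Base
import Pool.Agent.U199.SRC.Arith

/-! The third family: characteristic `p` with `p ∣ n`, `n = m + 3`. -/

set_option autoImplicit false

namespace U199.SRC

open MvPolynomial Finset

/-- `∑_{j=1}^{n-2} (x_j^{n-1} x_{j+1} - x_0^{n-1-j} x_n^j x_1) + (x_1^n - x_0^{n-1} x_n)
  + (x_{n-2}^n - x_0^2 x_n^{n-2}) + (x_{n-1}^n - x_0 x_n^{n-1}) + w (x_3^n - x_0^{n-3} x_n^3)`,
`n = m + 3` -/
noncomputable def FC (R : Type*) [CommRing R] (m : ℕ) (w : ℤ) :
    MvPolynomial (Fin (m + 3 + 1)) R :=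
  ∑ i ∈ range (m + 1), (X (ix (m + 3) (i + 1)) ^ (m + 2) * X (ix (m + 3) (i + 2))
      - X (ix (m + 3) 0) ^ (m + 1 - i) * X (ix (m + 3) (m + 3)) ^ (i + 1) * X (ix (m + 3) 1))
  + (X (ix (m + 3) 1) ^ (m + 3) - X (ix (m + 3) 0) ^ (m + 2) * X (ix (m + 3) (m + 3)))
  + (X (ix (m + 3) (m + 1)) ^ (m + 3) - X (ix (m + 3) 0) ^ 2 * X (ix (m + 3) (m + 3)) ^ (m + 1))
  + (X (ix (m + 3) (m + 2)) ^ (m + 3) - X (ix (m + 3) 0) * X (ix (m + 3) (m + 3)) ^ (m + 2))
  + (w : MvPolynomial (Fin (m + 3 + 1)) R) *
      (X (ix (m + 3) 3) ^ (m + 3) - X (ix (m + 3) 0) ^ m * X (ix (m + 3) (m + 3)) ^ 3)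

section

variable {R A : Type*} [CommRing R] [CommRing A] [Algebra R A]

lemma dd_FC (m : ℕ) (w : ℤ) (hA : (m : A) + 3 = 0) (x y : Fin (m + 3 + 1) → A) :
    dd (FC R m w) x y =
      ∑ i ∈ range (m + 1), x (ix (m + 3) (i + 1)) ^ (m + 2) * y (ix (m + 3) (i + 2))
      - ∑ i ∈ range (m + 1), x (ix (m + 3) (i + 1)) ^ (m + 1) * x (ix (m + 3) (i + 2))
          * y (ix (m + 3) (i + 1))
      - (∑ i ∈ range (m + 1), x (ix (m + 3) 0) ^ (m + 1 - i) * x (ix (m + 3) (m + 3)) ^ (i + 1))
          * y (ix (m + 3) 1)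
      + (∑ i ∈ range (m + 1), ((i : A) + 2) * (x (ix (m + 3) 0) ^ (m - i)
          * x (ix (m + 3) (m + 3)) ^ (i + 1) * x (ix (m + 3) 1))) * y (ix (m + 3) 0)
      - (∑ i ∈ range (m + 1), ((i : A) + 1) * (x (ix (m + 3) 0) ^ (m + 1 - i)
          * x (ix (m + 3) (m + 3)) ^ i * x (ix (m + 3) 1))) * y (ix (m + 3) (m + 3))
      + (x (ix (m + 3) 0) ^ (m + 1) * x (ix (m + 3) (m + 3))
        - 2 * (x (ix (m + 3) 0) * x (ix (m + 3) (m + 3)) ^ (m + 1))
        - x (ix (m + 3) (m + 3)) ^ (m + 2)
        + 3 * w * (x (ix (m + 3) 0) ^ (m - 1) * x (ix (m + 3) (m + 3)) ^ 3))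
          * y (ix (m + 3) 0)
      - (x (ix (m + 3) 0) ^ (m + 2)
        - 2 * (x (ix (m + 3) 0) ^ 2 * x (ix (m + 3) (m + 3)) ^ m)
        - x (ix (m + 3) 0) * x (ix (m + 3) (m + 3)) ^ (m + 1)
        + 3 * w * (x (ix (m + 3) 0) ^ m * x (ix (m + 3) (m + 3)) ^ 2))
          * y (ix (m + 3) (m + 3)) := by
  have e0 : ((m + 3 : ℕ) : A) = 0 := by push_cast; exact hA
  have e1 : ((m + 2 : ℕ) : A) = -1 := by push_cast; linear_combination hA
  have e2 : ((m + 1 : ℕ) : A) = -2 := by push_cast; linear_combination hA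
  have e3 : ((m : ℕ) : A) = -3 := by linear_combination hA
  have es : ∀ i ∈ range (m + 1), dd (X (ix (m + 3) (i + 1)) ^ (m + 2) * X (ix (m + 3) (i + 2))
      - X (ix (m + 3) 0) ^ (m + 1 - i) * X (ix (m + 3) (m + 3)) ^ (i + 1) * X (ix (m + 3) 1)
        : MvPolynomial (Fin (m + 3 + 1)) R) x y
      = x (ix (m + 3) (i + 1)) ^ (m + 2) * y (ix (m + 3) (i + 2))
      - x (ix (m + 3) (i + 1)) ^ (m + 1) * x (ix (m + 3) (i + 2)) * y (ix (m + 3) (i + 1))
      - (x (ix (m + 3) 0) ^ (m + 1 - i) * x (ix (m + 3) (m + 3)) ^ (i + 1)) * y (ix (m + 3) 1)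
      + (((i : A) + 2) * (x (ix (m + 3) 0) ^ (m - i)
          * x (ix (m + 3) (m + 3)) ^ (i + 1) * x (ix (m + 3) 1))) * y (ix (m + 3) 0)
      - (((i : A) + 1) * (x (ix (m + 3) 0) ^ (m + 1 - i)
          * x (ix (m + 3) (m + 3)) ^ i * x (ix (m + 3) 1))) * y (ix (m + 3) (m + 3)) := by
    intro i hi
    rw [mem_range] at hi
    have e4 : ((m + 1 - i : ℕ) : A) = -((i : A) + 2) := by
      rw [Nat.cast_sub (by omega)]; push_cast; linear_combination hA
    simp only [dd_sub, dd_mul, dd_pow, dd_X, map_pow, map_mul, aeval_X, e1, e4]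
    rw [show m + 1 - i - 1 = m - i by omega, show m + 2 - 1 = m + 1 by omega,
      show i + 1 - 1 = i by omega]
    push_cast
    ring
  rw [FC, dd_add, dd_add, dd_add, dd_add, dd_sum, sum_congr rfl es]
  simp only [sum_sub_distrib, sum_add_distrib, ← sum_mul]
  rw [dd_mul, dd_intCast]
  simp only [dd_sub, dd_mul, dd_pow, dd_X, map_pow, map_mul, map_sub, map_intCast, aeval_X]
  rw [e0, e1, e2, e3, show m + 2 - 1 = m + 1 by omega, show m + 1 - 1 = m by omega]
  push_cast
  ring

lemma sum_single (g : ℕ → A) {c j M N : ℕ} (a : A) (hN : M + c ≤ N + 1) (hj : j ≤ N) :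
    ∑ i ∈ range M, g i * (Pi.single (ix N j) a : Fin (N + 1) → A) (ix N (i + c))
      = if c ≤ j ∧ j < M + c then g (j - c) * a else 0 := by
  have e : ∀ i ∈ range M, g i * (Pi.single (ix N j) a : Fin (N + 1) → A) (ix N (i + c))
      = if i + c = j then g i * a else 0 := by
    intro i hi
    rw [mem_range] at hi
    rw [single_ix (by omega) hj]
    split_ifs <;> simp
  rw [sum_congr rfl e]
  split_ifs with h
  · rw [sum_eq_single (j - c)]
    · rw [if_pos (by omega)]
    · intro b hb hb'
      rw [if_neg (by omega)]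
    · intro h'
      exact absurd (mem_range.2 (by omega)) h'
  · apply sum_eq_zero
    intro i hi
    rw [mem_range] at hi
    rw [if_neg (by omega)]

lemma pC_1 (m : ℕ) (w : ℤ) (hA : (m : A) + 3 = 0) (x : Fin (m + 3 + 1) → A) (a : A) :
    dd (FC R m w) x (Pi.single (ix (m + 3) 1) a)
      = -((x (ix (m + 3) 1) ^ (m + 1) * x (ix (m + 3) 2)
        + ∑ i ∈ range (m + 1), x (ix (m + 3) 0) ^ (m + 1 - i) * x (ix (m + 3) (m + 3)) ^ (i + 1))
          * a) := by
  rw [dd_FC m w hA, sum_single _ a (by omega) (by omega), sum_single _ a (by omega) (by omega),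
    single_ix (by omega) (by omega), single_ix (by omega) (by omega),
    single_ix (by omega) (by omega), if_neg (by omega), if_pos (by omega), if_pos rfl,
    if_neg (by omega), if_neg (by omega)]
  simp only [Nat.sub_self, zero_add]
  ring

lemma pC_j (m : ℕ) (w : ℤ) (hA : (m : A) + 3 = 0) (x : Fin (m + 3 + 1) → A) (a : A)
    (k : ℕ) (hk1 : 1 ≤ k) (hk2 : k ≤ m) :
    dd (FC R m w) x (Pi.single (ix (m + 3) (k + 1)) a)
      = (x (ix (m + 3) k) ^ (m + 2) - x (ix (m + 3) (k + 1)) ^ (m + 1) * x (ix (m + 3) (k + 2)))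
        * a := by
  rw [dd_FC m w hA, sum_single _ a (by omega) (by omega), sum_single _ a (by omega) (by omega),
    single_ix (by omega) (by omega), single_ix (by omega) (by omega),
    single_ix (by omega) (by omega), if_pos (by omega), if_pos (by omega), if_neg (by omega),
    if_neg (by omega), if_neg (by omega)]
  rw [show k + 1 - 2 + 1 = k by omega, show k + 1 - 1 + 1 = k + 1 by omega,
    show k + 1 - 1 + 2 = k + 2 by omega]
  ring

lemma pC_l (m : ℕ) (w : ℤ) (hA : (m : A) + 3 = 0) (x : Fin (m + 3 + 1) → A) (a : A) :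
    dd (FC R m w) x (Pi.single (ix (m + 3) (m + 2)) a)
      = x (ix (m + 3) (m + 1)) ^ (m + 2) * a := by
  rw [dd_FC m w hA, sum_single _ a (by omega) (by omega), sum_single _ a (by omega) (by omega),
    single_ix (by omega) (by omega), single_ix (by omega) (by omega),
    single_ix (by omega) (by omega), if_pos (by omega), if_neg (by omega), if_neg (by omega),
    if_neg (by omega), if_neg (by omega)]
  rw [show m + 2 - 2 + 1 = m + 1 by omega]
  ring

lemma pC_0 (m : ℕ) (w : ℤ) (hA : (m : A) + 3 = 0) (x : Fin (m + 3 + 1) → A) (a : A) :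
    dd (FC R m w) x (Pi.single (ix (m + 3) 0) a)
      = (∑ i ∈ range (m + 1), ((i : A) + 2) * (x (ix (m + 3) 0) ^ (m - i)
          * x (ix (m + 3) (m + 3)) ^ (i + 1) * x (ix (m + 3) 1))
        + (x (ix (m + 3) 0) ^ (m + 1) * x (ix (m + 3) (m + 3))
        - 2 * (x (ix (m + 3) 0) * x (ix (m + 3) (m + 3)) ^ (m + 1))
        - x (ix (m + 3) (m + 3)) ^ (m + 2)
        + 3 * w * (x (ix (m + 3) 0) ^ (m - 1) * x (ix (m + 3) (m + 3)) ^ 3))) * a := by
  rw [dd_FC m w hA, sum_single _ a (by omega) (by omega), sum_single _ a (by omega) (by omega),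
    single_ix (by omega) (by omega), single_ix (by omega) (by omega),
    single_ix (by omega) (by omega), if_neg (by omega), if_neg (by omega), if_neg (by omega),
    if_pos (by omega), if_neg (by omega)]
  ring

lemma pC_n (m : ℕ) (w : ℤ) (hA : (m : A) + 3 = 0) (x : Fin (m + 3 + 1) → A) (a : A) :
    dd (FC R m w) x (Pi.single (ix (m + 3) (m + 3)) a)
      = -((∑ i ∈ range (m + 1), ((i : A) + 1) * (x (ix (m + 3) 0) ^ (m + 1 - i)
          * x (ix (m + 3) (m + 3)) ^ i * x (ix (m + 3) 1))
        + (x (ix (m + 3) 0) ^ (m + 2)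
        - 2 * (x (ix (m + 3) 0) ^ 2 * x (ix (m + 3) (m + 3)) ^ m)
        - x (ix (m + 3) 0) * x (ix (m + 3) (m + 3)) ^ (m + 1)
        + 3 * w * (x (ix (m + 3) 0) ^ m * x (ix (m + 3) (m + 3)) ^ 2))) * a) := by
  rw [dd_FC m w hA, sum_single _ a (by omega) (by omega), sum_single _ a (by omega) (by omega),
    single_ix (by omega) (by omega), single_ix (by omega) (by omega),
    single_ix (by omega) (by omega), if_neg (by omega), if_neg (by omega), if_neg (by omega),
    if_neg (by omega), if_pos (by omega)]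
  ring

end

lemma homd {σ R : Type*} [CommRing R] {P : MvPolynomial σ R} {k n : ℕ} (h : P.IsHomogeneous k)
    (e : k = n) : P.IsHomogeneous n := e ▸ h

lemma hom_FC {R : Type*} [CommRing R] (m : ℕ) (w : ℤ) : (FC R m w).IsHomogeneous (m + 3) := by
  have hX : ∀ (i : Fin (m + 3 + 1)) (k : ℕ),
      (X i ^ k : MvPolynomial (Fin (m + 3 + 1)) R).IsHomogeneous k :=
    fun i k => isHomogeneous_X_pow _ _
  have hX1 : ∀ (i : Fin (m + 3 + 1)),
      (X i : MvPolynomial (Fin (m + 3 + 1)) R).IsHomogeneous 1 :=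
    fun i => isHomogeneous_X _ _
  have hc : (w : MvPolynomial (Fin (m + 3 + 1)) R) = C (w : R) := by simp
  apply IsHomogeneous.add
  · apply IsHomogeneous.add
    · apply IsHomogeneous.add
      · apply IsHomogeneous.add
        · apply IsHomogeneous.sum
          intro i hi
          rw [mem_range] at hi
          apply IsHomogeneous.sub
          · exact (hX _ _).mul (hX1 _)
          · exact homd (((hX (ix (m + 3) 0) (m + 1 - i)).mul
              (hX (ix (m + 3) (m + 3)) (i + 1))).mul (hX1 (ix (m + 3) 1))) (by omega)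
        · exact (hX _ _).sub ((hX _ _).mul (hX1 _))
      · exact (hX _ _).sub (homd ((hX _ _).mul (hX _ _)) (by omega))
    · exact (hX _ _).sub (homd ((hX1 _).mul (hX _ _)) (by omega))
  · rw [hc]
    exact ((hX _ _).sub ((hX _ _).mul (hX _ _))).C_mul _

section

variable {K : Type*} [Field K]

lemma geomS (m : ℕ) (a b : K) :
    (b - a) * ∑ i ∈ range (m + 1), a ^ (m + 1 - i) * b ^ (i + 1)
      = a * b * (b ^ (m + 1) - a ^ (m + 1)) := by
  induction m with
  | zero => simp; ring
  | succ m ih =>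
    have e1 : ∑ i ∈ range (m + 1), a ^ (m + 1 + 1 - i) * b ^ (i + 1)
        = a * ∑ i ∈ range (m + 1), a ^ (m + 1 - i) * b ^ (i + 1) := by
      rw [mul_sum]
      refine sum_congr rfl fun i hi => ?_
      rw [mem_range] at hi
      rw [show m + 1 + 1 - i = (m + 1 - i) + 1 by omega]; ring
    rw [sum_range_succ, e1, show m + 1 + 1 - (m + 1) = 1 by omega]
    linear_combination a * ih

/-- the two ends vanish -/
lemma endsC (m : ℕ) (w : ℤ) (hm : 1 ≤ m)
    (hw : ((w : K) = 0 ∧ (2 : K) ≠ 0) ∨ ((w : K) ≠ 0 ∧ (2 : K) = 0 ∧ 3 ≤ m)) (a b : K)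
    (hS : ∑ i ∈ range (m + 1), a ^ (m + 1 - i) * b ^ (i + 1) = 0)
    (h0 : a ^ (m + 1) * b - 2 * (a * b ^ (m + 1)) - b ^ (m + 2)
      + 3 * w * (a ^ (m - 1) * b ^ 3) = 0)
    (hn : a ^ (m + 2) - 2 * (a ^ 2 * b ^ m) - a * b ^ (m + 1)
      + 3 * w * (a ^ m * b ^ 2) = 0) : a = 0 ∧ b = 0 := by
  rcases eq_or_ne a 0 with ha | ha
  · refine ⟨ha, ?_⟩
    have : (3 : K) * w * (a ^ (m - 1) * b ^ 3) = 0 := by
      rcases hw with hw | hw
      · rw [hw.1]; ring
      · rw [ha, zero_pow (by omega)]; ring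
    rw [this, ha, zero_pow (by omega)] at h0
    have h1 : b ^ (m + 2) = 0 := by linear_combination -h0
    exact pow_eq_zero_iff (by omega : m + 2 ≠ 0) |>.1 h1
  · exfalso
    rcases eq_or_ne b 0 with hb | hb
    · rw [hb, zero_pow (by omega), zero_pow (by omega)] at hn
      have h1 : a ^ (m + 2) = 0 := by linear_combination hn
      exact ha (pow_eq_zero_iff (by omega : m + 2 ≠ 0) |>.1 h1)
    · have e1 : a * b * (b ^ (m + 1) - a ^ (m + 1)) = 0 := by
        rw [← geomS, hS, mul_zero]
      have e2 : b ^ (m + 1) - a ^ (m + 1) = 0 :=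
        (mul_eq_zero.1 e1).resolve_left (mul_ne_zero ha hb)
      have e3 : 2 * (a ^ 2 * b ^ m) - 3 * w * (a ^ m * b ^ 2) = 0 := by
        linear_combination (-1 : K) * hn - a * e2
      rcases hw with hw | hw
      · rw [hw.1] at e3
        have e4 : 2 * (a ^ 2 * b ^ m) = 0 := by linear_combination e3
        exact mul_ne_zero hw.2 (mul_ne_zero (pow_ne_zero _ ha) (pow_ne_zero _ hb)) e4
      · have e4 : (w : K) * (a ^ m * b ^ 2) = 0 := by
          linear_combination (-1 : K) * e3 + (a ^ 2 * b ^ m - w * (a ^ m * b ^ 2)) * hw.2.1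
        exact mul_ne_zero hw.1 (mul_ne_zero (pow_ne_zero _ ha) (pow_ne_zero _ hb)) e4

end

theorem good_FC {p : ℕ} [Fact p.Prime] {K : Type*} [Field K] [Algebra (ZMod p) K] (m : ℕ) (w : ℤ)
    (hm : 1 ≤ m) (hK : (m : K) + 3 = 0)
    (hw : ((w : K) = 0 ∧ (2 : K) ≠ 0) ∨ ((w : K) ≠ 0 ∧ (2 : K) = 0 ∧ 3 ≤ m)) :
    Good K p (m + 3) (m + 3) (FC (ZMod p) m w) where
  hom := hom_FC m w
  smooth := by
    intro x hx hF
    have H : ∀ y, dd (FC (ZMod p) m w) x y = 0 := fun y => dd_eq_zero _ _ _ hx
    -- the middle coordinates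
    have mid : ∀ r k, 1 ≤ k → k + r = m + 1 → x (ix (m + 3) k) = 0 := by
      intro r
      induction r with
      | zero =>
        intro k hk1 hk2
        have := H (Pi.single (ix (m + 3) (m + 2)) 1)
        rw [pC_l m w hK, mul_one] at this
        have h1 := pow_eq_zero_iff (by omega : m + 2 ≠ 0) |>.1 this
        rw [show k = m + 1 by omega]; exact h1
      | succ r ih =>
        intro k hk1 hk2
        have := H (Pi.single (ix (m + 3) (k + 1)) 1)
        rw [pC_j m w hK _ _ k hk1 (by omega), mul_one, ih (k + 1) (by omega) (by omega),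
          zero_pow (by omega), zero_mul, sub_zero] at this
        exact pow_eq_zero_iff (by omega : m + 2 ≠ 0) |>.1 this
    have h1 : x (ix (m + 3) 1) = 0 := mid m 1 le_rfl (by omega)
    have hab : x (ix (m + 3) 0) = 0 ∧ x (ix (m + 3) (m + 3)) = 0 := by
      apply endsC m w hm hw
      · have := H (Pi.single (ix (m + 3) 1) 1)
        rw [pC_1 m w hK, h1, zero_pow (by omega), mul_one] at this
        linear_combination -this
      · have := H (Pi.single (ix (m + 3) 0) 1)
        rw [pC_0 m w hK, h1, mul_one, sum_eq_zero (fun i _ => by ring)] at this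
        linear_combination this
      · have := H (Pi.single (ix (m + 3) (m + 3)) 1)
        rw [pC_n m w hK, h1, mul_one, sum_eq_zero (fun i _ => by ring)] at this
        linear_combination -this
    have h3 : (w : K) * x (ix (m + 3) 3) ^ (m + 3) = 0 := by
      rcases hw with hw | hw
      · rw [hw.1]; ring
      · rw [mid (m - 2) 3 (by omega) (by omega), zero_pow (by omega), mul_zero]
    have hl : x (ix (m + 3) (m + 2)) = 0 := by
      rw [FC] at hF
      simp only [map_add, map_sub, map_mul, map_pow, map_sum, aeval_X, map_intCast] at hF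
      rw [hab.1, hab.2, h1, mid 0 (m + 1) (by omega) (by omega), sum_eq_zero] at hF
      · have : x (ix (m + 3) (m + 2)) ^ (m + 3) = 0 := by
          rw [zero_pow (by omega : m + 3 ≠ 0), zero_pow (by omega : m + 2 ≠ 0),
            zero_pow (by omega : m ≠ 0)] at hF
          linear_combination hF - h3
        exact pow_eq_zero_iff (by omega : m + 3 ≠ 0) |>.1 this
      · intro i hi
        rw [mem_range] at hi
        rw [mid (m - i) (i + 1) (by omega) (by omega), zero_pow (by omega : m + 2 ≠ 0)]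
        ring
    funext i
    have hi : x i = x (ix (m + 3) (i : ℕ)) := by rw [ix_self]
    rw [hi, Pi.zero_apply]
    obtain h | h | h | h : (i : ℕ) = 0 ∨ (1 ≤ (i : ℕ) ∧ (i : ℕ) ≤ m + 1) ∨
        (i : ℕ) = m + 2 ∨ (i : ℕ) = m + 3 := by omega
    · rw [h]; exact hab.1
    · exact mid (m + 1 - i) _ h.1 (by omega)
    · rw [h]; exact hl
    · rw [h]; exact hab.2
  onX := by
    rw [FC]
    simp only [map_add, map_sub, map_mul, map_pow, map_sum, aeval_X, map_intCast]
    rw [sum_eq_zero, ratNormal_ix K (show 0 ≤ m + 3 by omega), ratNormal_ix K (show 1 ≤ m + 3 by omega),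
      ratNormal_ix K (show m + 1 ≤ m + 3 by omega), ratNormal_ix K (show m + 2 ≤ m + 3 by omega),
      ratNormal_ix K (show m + 3 ≤ m + 3 by omega), ratNormal_ix K (show 3 ≤ m + 3 by omega)]
    · rw [show m + 3 - 0 = m + 3 by omega, show m + 3 - 1 = m + 2 by omega,
        show m + 3 - (m + 1) = 2 by omega,
        show m + 3 - (m + 2) = 1 by omega, show m + 3 - (m + 3) = 0 by omega,
        show m + 3 - 3 = m by omega]
      ring
    · intro i hi
      rw [mem_range] at hi
      rw [ratNormal_ix K (show i + 1 ≤ m + 3 by omega), ratNormal_ix K (show i + 2 ≤ m + 3 by omega),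
        ratNormal_ix K (show 0 ≤ m + 3 by omega), ratNormal_ix K (show 1 ≤ m + 3 by omega),
        ratNormal_ix K (show m + 3 ≤ m + 3 by omega)]
      obtain ⟨q, hq⟩ : ∃ q, m = i + q := ⟨m - i, by omega⟩
      rw [show m + 3 - (i + 1) = q + 2 by omega, show m + 3 - (i + 2) = q + 1 by omega,
        show m + 3 - 0 = m + 3 by omega, show m + 3 - 1 = m + 2 by omega,
        show m + 3 - (m + 3) = 0 by omega, show m + 1 - i = q + 1 by omega, hq]
      ring
  span := by
    intro ℓ hℓ hℓ'
    have hKX : (m : Polynomial K) + 3 = 0 := by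
      have := congrArg (Polynomial.C) hK
      rwa [map_add, map_natCast, map_ofNat, map_zero] at this
    have Hd : ∀ j, j ≤ m + 3 → ∀ x, x + 2 ≤ m + 3 →
        ℓ (dd (FC (ZMod p) m w) (cv K (m + 3) (m + 3))
          (Pi.single (ix (m + 3) j) (Polynomial.X ^ x))) = 0 := by
      intro j hj x hx
      rw [dd_single]
      exact hℓ _ x hx
    have D0 : aeval (cv K (m + 3) (m + 3)) (pderiv 0 (FC (ZMod p) m w)) =
        ∑ i ∈ range (m + 1), ((i : Polynomial K) + 2) * Polynomial.X ^ ((i + 1) * (m + 3) + 1)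
        + Polynomial.X ^ (m + 3) - 2 * Polynomial.X ^ ((m + 1) * (m + 3))
        - Polynomial.X ^ ((m + 2) * (m + 3)) + 3 * (w : Polynomial K) * Polynomial.X ^ (3 * (m + 3)) := by
      have e : dd (FC (ZMod p) m w) (cv K (m + 3) (m + 3)) (Pi.single (ix (m + 3) 0) 1)
          = aeval (cv K (m + 3) (m + 3)) (pderiv 0 (FC (ZMod p) m w)) := by
        rw [dd_single, one_mul]; rfl
      rw [← e, pC_0 m w hKX, cv_ix K (show 0 ≤ m + 3 by omega),
        cv_ix K (show 1 ≤ m + 3 by omega), cv_ix K (show m + 3 ≤ m + 3 by omega)]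
      have e1 : ∑ i ∈ range (m + 1), ((i : Polynomial K) + 2) * ((Polynomial.X ^ 0) ^ (m - i)
          * (Polynomial.X ^ (m + 3)) ^ (i + 1) * Polynomial.X ^ 1)
          = ∑ i ∈ range (m + 1), ((i : Polynomial K) + 2)
            * Polynomial.X ^ ((i + 1) * (m + 3) + 1) := by
        refine sum_congr rfl fun i hi => ?_
        ring
      rw [e1]
      ring
    have l2 : ∀ (P : Polynomial K) (k : ℕ), ℓ (((k : Polynomial K) + 2) * P)
        = ((k : K) + 2) * ℓ P := by
      intro P k
      have := lin_nat ℓ (k + 2) P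
      push_cast at this
      exact this
    have l1 : ∀ (P : Polynomial K) (k : ℕ), ℓ (((k : Polynomial K) + 1) * P)
        = ((k : K) + 1) * ℓ P := by
      intro P k
      have := lin_nat ℓ (k + 1) P
      push_cast at this
      exact this
    have l2' : ∀ (P : Polynomial K), ℓ (2 * P) = 2 * ℓ P := by
      intro P
      have := lin_nat ℓ 2 P
      push_cast at this
      exact this
    have lw : ∀ (P : Polynomial K), ℓ (3 * (w : Polynomial K) * P) = 3 * (w : K) * ℓ P := by
      intro P
      have := lin_int ℓ (3 * w) P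
      push_cast at this
      exact this
    apply arithC m (fun E => ℓ (Polynomial.X ^ E)) (w : K) hm hK
      (hw.imp (fun h => h.1) (fun h => h.2.2))
    · intro x hx
      have := Hd 1 (by omega) x (by omega)
      rw [pC_1 m w hKX, cv_ix K (show 0 ≤ m + 3 by omega), cv_ix K (show 2 ≤ m + 3 by omega),
        cv_ix K (show 1 ≤ m + 3 by omega), cv_ix K (show m + 3 ≤ m + 3 by omega), map_neg,
        neg_eq_zero, add_mul, map_add, sum_mul, map_sum] at this
      rw [← this]
      congr 1
      · congr 1; ring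
      · refine sum_congr rfl fun i hi => ?_
        congr 1; ring
    · intro k hk1 hk2 x hx
      have := Hd (k + 1) (by omega) x (by omega)
      rw [pC_j m w hKX _ _ k hk1 hk2, cv_ix K (show k ≤ m + 3 by omega),
        cv_ix K (show k + 1 ≤ m + 3 by omega), cv_ix K (show k + 2 ≤ m + 3 by omega),
        sub_mul, map_sub, sub_eq_zero] at this
      have e1 : (Polynomial.X ^ k) ^ (m + 2) * Polynomial.X ^ x
          = (Polynomial.X ^ (k * (m + 2) + x) : Polynomial K) := by ring
      have e2 : (Polynomial.X ^ (k + 1)) ^ (m + 1) * Polynomial.X ^ (k + 2) * Polynomial.X ^ x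
          = (Polynomial.X ^ (k * (m + 2) + x + (m + 3)) : Polynomial K) := by ring
      rw [e1, e2] at this
      exact this
    · intro x hx
      have := Hd (m + 2) (by omega) x (by omega)
      rw [pC_l m w hKX, cv_ix K (show m + 1 ≤ m + 3 by omega), ← pow_mul, ← pow_add] at this
      exact this
    · intro x hx
      have := hℓ 0 x (by omega)
      rw [D0, mul_add, mul_sub, mul_sub, mul_add, map_add, map_sub, map_sub, map_add,
        mul_sum, map_sum] at this
      rw [← this]
      congr 1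
      · congr 1
        · congr 1
          · congr 1
            · refine sum_congr rfl fun i hi => ?_
              rw [← l2]; congr 1; ring
            · congr 1; ring
          · rw [← l2']; congr 1; ring
        · congr 1; ring
      · rw [← lw]; congr 1; ring
    · have := hℓ' (∑ i ∈ range (m + 1), ((i : Polynomial K) + 2)
          * Polynomial.X ^ ((i + 1) * (m + 3))
        + Polynomial.X ^ (m + 2) - 2 * Polynomial.X ^ (m * (m + 3) + (m + 2))
        - Polynomial.X ^ ((m + 1) * (m + 3) + (m + 2))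
        + 3 * (w : Polynomial K) * Polynomial.X ^ (2 * (m + 3) + (m + 2))) (by
          have e1 : ∑ i ∈ range (m + 1), ((i : Polynomial K) + 2)
              * Polynomial.X ^ ((i + 1) * (m + 3) + 1)
              = Polynomial.X * ∑ i ∈ range (m + 1), ((i : Polynomial K) + 2)
                * Polynomial.X ^ ((i + 1) * (m + 3)) := by
            rw [mul_sum]
            refine sum_congr rfl fun i hi => ?_
            ring
          rw [D0, e1]
          ring)
      rw [map_add, map_sub, map_sub, map_add, map_sum] at this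
      rw [← this]
      congr 1
      · congr 1
        · congr 1
          · congr 1
            refine sum_congr rfl fun i hi => ?_
            rw [← l2]
          · rw [← l2']
      · rw [← lw]
    · intro x hx
      have := Hd (m + 3) (by omega) x (by omega)
      have e1 : ∑ i ∈ range (m + 1), ((i : Polynomial K) + 1) * ((Polynomial.X ^ 0) ^ (m + 1 - i)
          * (Polynomial.X ^ (m + 3)) ^ i * Polynomial.X ^ 1) * Polynomial.X ^ x
          = ∑ i ∈ range (m + 1), ((i : Polynomial K) + 1)
            * Polynomial.X ^ (i * (m + 3) + 1 + x) := by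
        refine sum_congr rfl fun i hi => ?_
        ring
      rw [pC_n m w hKX, cv_ix K (show 0 ≤ m + 3 by omega), cv_ix K (show 1 ≤ m + 3 by omega),
        cv_ix K (show m + 3 ≤ m + 3 by omega), map_neg, neg_eq_zero, add_mul, sum_mul, e1,
        map_add, map_sum] at this
      have e2 : ((Polynomial.X ^ 0) ^ (m + 2)
          - 2 * ((Polynomial.X ^ 0) ^ 2 * (Polynomial.X ^ (m + 3)) ^ m)
          - Polynomial.X ^ 0 * (Polynomial.X ^ (m + 3)) ^ (m + 1)
          + 3 * (w : Polynomial K) * ((Polynomial.X ^ 0) ^ m * (Polynomial.X ^ (m + 3)) ^ 2))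
            * Polynomial.X ^ x
          = Polynomial.X ^ x - 2 * Polynomial.X ^ (m * (m + 3) + x)
            - Polynomial.X ^ ((m + 1) * (m + 3) + x)
            + 3 * (w : Polynomial K) * Polynomial.X ^ (2 * (m + 3) + x) := by
        ring
      rw [e2, map_add, map_sub, map_sub, l2', lw] at this
      rw [← this, sum_congr rfl (fun i _ => (l1 _ i).symm)]
      ring
  hyp := by
    intro _
    refine ⟨ix (m + 3) (m + 2), ?_⟩
    intro x hl hx hF
    have H : ∀ j, j ≤ m + 3 → j ≠ m + 2 →
        dd (FC (ZMod p) m w) x (Pi.single (ix (m + 3) j) 1) = 0 := by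
      intro j hj hj2
      rw [dd_single, hx, mul_zero]
      rw [Ne, ix_inj hj (by omega)]
      exact hj2
    -- the middle coordinates
    have mid : ∀ r k, 1 ≤ k → k + r = m → x (ix (m + 3) k) = 0 := by
      intro r
      induction r with
      | zero =>
        intro k hk1 hk2
        have := H (k + 1) (by omega) (by omega)
        rw [pC_j m w hK _ _ k hk1 (by omega), mul_one, show k + 2 = m + 2 by omega, hl, mul_zero,
          sub_zero] at this
        exact pow_eq_zero_iff (by omega : m + 2 ≠ 0) |>.1 this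
      | succ r ih =>
        intro k hk1 hk2
        have := H (k + 1) (by omega) (by omega)
        rw [pC_j m w hK _ _ k hk1 (by omega), mul_one, ih (k + 1) (by omega) (by omega),
          zero_pow (by omega), zero_mul, sub_zero] at this
        exact pow_eq_zero_iff (by omega : m + 2 ≠ 0) |>.1 this
    have h1 : x (ix (m + 3) 1) = 0 := mid (m - 1) 1 le_rfl (by omega)
    have hab : x (ix (m + 3) 0) = 0 ∧ x (ix (m + 3) (m + 3)) = 0 := by
      apply endsC m w hm hw
      · have := H 1 (by omega) (by omega)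
        rw [pC_1 m w hK, h1, zero_pow (by omega), mul_one] at this
        linear_combination -this
      · have := H 0 (by omega) (by omega)
        rw [pC_0 m w hK, h1, mul_one, sum_eq_zero (fun i _ => by ring)] at this
        linear_combination this
      · have := H (m + 3) (by omega) (by omega)
        rw [pC_n m w hK, h1, mul_one, sum_eq_zero (fun i _ => by ring)] at this
        linear_combination -this
    have h3 : (w : K) * x (ix (m + 3) 3) ^ (m + 3) = 0 := by
      rcases hw with hw | hw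
      · rw [hw.1]; ring
      · rw [mid (m - 3) 3 (by omega) (by omega), zero_pow (by omega), mul_zero]
    have hk : x (ix (m + 3) (m + 1)) = 0 := by
      rw [FC] at hF
      simp only [map_add, map_sub, map_mul, map_pow, map_sum, aeval_X, map_intCast] at hF
      rw [hab.1, hab.2, h1, hl, sum_eq_zero] at hF
      · have : x (ix (m + 3) (m + 1)) ^ (m + 3) = 0 := by
          rw [zero_pow (by omega : m + 3 ≠ 0), zero_pow (by omega : m + 2 ≠ 0),
            zero_pow (by omega : m ≠ 0)] at hF
          linear_combination hF - h3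
        exact pow_eq_zero_iff (by omega : m + 3 ≠ 0) |>.1 this
      · intro i hi
        rw [mem_range] at hi
        rcases Nat.lt_or_ge i m with him | him
        · rw [mid (m - i - 1) (i + 1) (by omega) (by omega), zero_pow (by omega : m + 2 ≠ 0)]
          ring
        · rw [show i + 2 = m + 2 by omega, hl]
          ring
    funext i
    have hi : x i = x (ix (m + 3) (i : ℕ)) := by rw [ix_self]
    rw [hi, Pi.zero_apply]
    obtain h | h | h | h | h : (i : ℕ) = 0 ∨ (1 ≤ (i : ℕ) ∧ (i : ℕ) ≤ m) ∨ (i : ℕ) = m + 1 ∨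
        (i : ℕ) = m + 2 ∨ (i : ℕ) = m + 3 := by omega
    · rw [h]; exact hab.1
    · exact mid (m - i) _ h.1 (by omega)
    · rw [h]; exact hk
    · rw [h]; exact hl
    · rw [h]; exact hab.2

end U199.SRC
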