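import Mathlib
import Pool.Agent.U199.SRC.Base

/-! The small cases `(n, p) = (2, 2), (3, 3), (4, 2)`. -/

set_option autoImplicit false
set_option linter.unusedSimpArgs false

namespace U199.SRC

open MvPolynomial Finset

lemma homd' {σ R : Type*} [CommRing R] {P : MvPolynomial σ R} {k n : ℕ} (h : P.IsHomogeneous k)
    (e : k = n) : P.IsHomogeneous n := e ▸ h

/-- `x_1^2 + x_0 x_2` in characteristic `2` -/
noncomputable def F2 : MvPolynomial (Fin (2 + 1)) (ZMod 2) := X 1 ^ 2 + X 0 * X 2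

/-- `x_1^2 x_2 - x_0 x_3 x_1 + 2 (x_1^3 - x_0^2 x_3) + (x_2^3 - x_0 x_3^2)` in characteristic `3` -/
noncomputable def F3 : MvPolynomial (Fin (3 + 1)) (ZMod 3) :=
  X 1 ^ 2 * X 2 - X 0 * X 3 * X 1 + (X 1 ^ 3 - X 0 ^ 2 * X 3) + (X 1 ^ 3 - X 0 ^ 2 * X 3)
    + (X 2 ^ 3 - X 0 * X 3 ^ 2)

/-- `x_1^3 (x_0 + x_4) + x_2^3 x_1 + x_0^3 x_3 + x_0 x_4^3 + x_3^4` in characteristic `2` -/
noncomputable def F4 : MvPolynomial (Fin (4 + 1)) (ZMod 2) :=
  X 1 ^ 3 * (X 0 + X 4) + X 2 ^ 3 * X 1 + X 0 ^ 3 * X 3 + X 0 * X 4 ^ 3 + X 3 ^ 4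

section

variable {A : Type*} [CommRing A]

lemma two_eq_zero' [Algebra (ZMod 2) A] : (2 : A) = 0 := by
  have : (algebraMap (ZMod 2) A) 2 = 0 := by
    rw [show (2 : ZMod 2) = 0 from by decide, map_zero]
  rwa [map_ofNat] at this

lemma three_eq_zero' [Algebra (ZMod 3) A] : (3 : A) = 0 := by
  have : (algebraMap (ZMod 3) A) 3 = 0 := by
    rw [show (3 : ZMod 3) = 0 from by decide, map_zero]
  rwa [map_ofNat] at this

lemma F2_0 [Algebra (ZMod 2) A] (x : Fin (2 + 1) → A) : aeval x (pderiv 0 F2) = x 2 := by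
  simp [F2, pderiv_mul, pderiv_pow, pderiv_X, Pi.single_apply]

lemma F2_2 [Algebra (ZMod 2) A] (x : Fin (2 + 1) → A) : aeval x (pderiv 2 F2) = x 0 := by
  simp [F2, pderiv_mul, pderiv_pow, pderiv_X, Pi.single_apply]

lemma F3_0 [Algebra (ZMod 3) A] (x : Fin (3 + 1) → A) : aeval x (pderiv 0 F3)
    = -(x 3 * x 1) - x 0 * x 3 - x 3 ^ 2 := by
  simp [F3, pderiv_mul, pderiv_pow, pderiv_X, Pi.single_apply]
  linear_combination (- x 0 * x 3) * (three_eq_zero' (A := A))

lemma F3_1 [Algebra (ZMod 3) A] (x : Fin (3 + 1) → A) : aeval x (pderiv 1 F3)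
    = 2 * x 1 * x 2 - x 0 * x 3 := by
  simp [F3, pderiv_mul, pderiv_pow, pderiv_X, Pi.single_apply]
  linear_combination (2 * x 1 ^ 2) * (three_eq_zero' (A := A))

lemma F3_2 [Algebra (ZMod 3) A] (x : Fin (3 + 1) → A) : aeval x (pderiv 2 F3)
    = x 1 ^ 2 := by
  simp [F3, pderiv_mul, pderiv_pow, pderiv_X, Pi.single_apply]
  linear_combination (x 2 ^ 2) * (three_eq_zero' (A := A))

lemma F3_3 [Algebra (ZMod 3) A] (x : Fin (3 + 1) → A) : aeval x (pderiv 3 F3)
    = -(x 0 * x 1) - 2 * x 0 ^ 2 - 2 * x 0 * x 3 := by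
  simp [F3, pderiv_mul, pderiv_pow, pderiv_X, Pi.single_apply]
  ring

lemma F4_0 [Algebra (ZMod 2) A] (x : Fin (4 + 1) → A) : aeval x (pderiv 0 F4)
    = x 1 ^ 3 + x 0 ^ 2 * x 3 + x 4 ^ 3 := by
  simp [F4, pderiv_mul, pderiv_pow, pderiv_X, Pi.single_apply]
  linear_combination (x 0 ^ 2 * x 3) * (two_eq_zero' (A := A))

lemma F4_1 [Algebra (ZMod 2) A] (x : Fin (4 + 1) → A) : aeval x (pderiv 1 F4)
    = x 1 ^ 2 * (x 0 + x 4) + x 2 ^ 3 := by
  simp [F4, pderiv_mul, pderiv_pow, pderiv_X, Pi.single_apply]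
  linear_combination (x 1 ^ 2 * (x 0 + x 4)) * (two_eq_zero' (A := A))

lemma F4_2 [Algebra (ZMod 2) A] (x : Fin (4 + 1) → A) : aeval x (pderiv 2 F4)
    = x 2 ^ 2 * x 1 := by
  simp [F4, pderiv_mul, pderiv_pow, pderiv_X, Pi.single_apply]
  linear_combination (x 2 ^ 2 * x 1) * (two_eq_zero' (A := A))

lemma F4_3 [Algebra (ZMod 2) A] (x : Fin (4 + 1) → A) : aeval x (pderiv 3 F4)
    = x 0 ^ 3 := by
  simp [F4, pderiv_mul, pderiv_pow, pderiv_X, Pi.single_apply]
  linear_combination (2 * x 3 ^ 3) * (two_eq_zero' (A := A))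

lemma F4_4 [Algebra (ZMod 2) A] (x : Fin (4 + 1) → A) : aeval x (pderiv 4 F4)
    = x 1 ^ 3 + x 0 * x 4 ^ 2 := by
  simp [F4, pderiv_mul, pderiv_pow, pderiv_X, Pi.single_apply]
  linear_combination (x 0 * x 4 ^ 2) * (two_eq_zero' (A := A))

end

theorem good_F2 {K : Type*} [Field K] [Algebra (ZMod 2) K] : Good K 2 2 2 F2 where
  hom := by
    rw [F2]
    exact (isHomogeneous_X_pow _ _).add ((isHomogeneous_X _ _).mul (isHomogeneous_X _ _))
  smooth := by
    intro x hx hF
    have h0 := hx 0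
    have h2 := hx 2
    rw [F2_0] at h0
    rw [F2_2] at h2
    have h1 : x 1 = 0 := by
      simp only [F2, map_add, map_mul, map_pow, aeval_X, h0, mul_zero, add_zero] at hF
      exact pow_eq_zero_iff (two_ne_zero) |>.1 hF
    funext i
    fin_cases i
    · exact h2
    · exact h1
    · exact h0
  onX := by
    simp [F2, ratNormal]
    have := two_eq_zero' (A := MvPolynomial (Fin 2) K)
    linear_combination (X 0 * X 1 : MvPolynomial (Fin 2) K) ^ 2 * this
  span := by
    intro ℓ hℓ hℓ'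
    have h0 := hℓ 0 0 (by omega)
    have h2 := hℓ 2 0 (by omega)
    rw [F2_0] at h0
    rw [F2_2] at h2
    have h1 := hℓ' Polynomial.X (by rw [F2_0]; simp [cv]; ring)
    intro E hE
    have : E = 0 ∨ E = 1 ∨ E = 2 := by omega
    rcases this with rfl | rfl | rfl
    · simpa [cv] using h2
    · simpa using h1
    · simpa [cv] using h0
  hyp := by
    intro _
    refine ⟨1, fun x hv hx hF => ?_⟩
    have h0 := hx 0 (by decide)
    have h2 := hx 2 (by decide)
    rw [F2_0] at h0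
    rw [F2_2] at h2
    funext i
    fin_cases i
    · exact h2
    · exact hv
    · exact h0

theorem good_F3 {K : Type*} [Field K] [Algebra (ZMod 3) K] : Good K 3 3 3 F3 where
  hom := by
    have hX : ∀ (i : Fin (3 + 1)) (k : ℕ),
        (X i ^ k : MvPolynomial (Fin (3 + 1)) (ZMod 3)).IsHomogeneous k :=
      fun i k => isHomogeneous_X_pow _ _
    have hX1 : ∀ (i : Fin (3 + 1)),
        (X i : MvPolynomial (Fin (3 + 1)) (ZMod 3)).IsHomogeneous 1 :=
      fun i => isHomogeneous_X _ _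
    rw [F3]
    apply IsHomogeneous.add
    · apply IsHomogeneous.add
      · apply IsHomogeneous.add
        · exact ((hX _ _).mul (hX1 _)).sub (((hX1 _).mul (hX1 _)).mul (hX1 _))
        · exact (hX _ _).sub ((hX _ _).mul (hX1 _))
      · exact (hX _ _).sub ((hX _ _).mul (hX1 _))
    · exact (hX _ _).sub ((hX1 _).mul (hX _ _))
  smooth := by
    intro x hx hF
    have h0 := hx 0
    have h1 := hx 1
    have h2 := hx 2
    have h3 := hx 3
    rw [F3_0] at h0
    rw [F3_1] at h1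
    rw [F3_2] at h2
    rw [F3_3] at h3
    have two : (2 : K) ≠ 0 := by
      intro h
      have := three_eq_zero' (A := K)
      exact one_ne_zero (α := K) (by linear_combination this - h)
    have e1 : x 1 = 0 := pow_eq_zero_iff two_ne_zero |>.1 h2
    rw [e1] at h0 h1 h3
    have e3 : x 3 = 0 := by
      have : x 3 ^ 2 = 0 := by linear_combination -h0 + h1
      exact pow_eq_zero_iff two_ne_zero |>.1 this
    have e0 : x 0 = 0 := by
      rw [e3] at h3
      have : 2 * x 0 ^ 2 = 0 := by linear_combination -h3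
      exact pow_eq_zero_iff two_ne_zero |>.1 ((mul_eq_zero.1 this).resolve_left two)
    have e2 : x 2 = 0 := by
      simp only [F3, map_add, map_sub, map_mul, map_pow, aeval_X, e0, e1, e3] at hF
      have : x 2 ^ 3 = 0 := by linear_combination hF
      exact pow_eq_zero_iff three_ne_zero |>.1 this
    funext i
    fin_cases i
    · exact e0
    · exact e1
    · exact e2
    · exact e3
  onX := by
    simp [F3, ratNormal]
    ring
  span := by
    intro ℓ hℓ hℓ'
    have two : (2 : K) ≠ 0 := by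
      intro h
      have := three_eq_zero' (A := K)
      exact one_ne_zero (α := K) (by linear_combination this - h)
    have cv0 : cv K 3 3 0 = 1 := by simp [cv]
    have cv1 : cv K 3 3 1 = Polynomial.X := by simp [cv]
    have cv2 : cv K 3 3 2 = Polynomial.X ^ 2 := by simp [cv]
    have cv3 : cv K 3 3 3 = Polynomial.X ^ 3 := by simp [cv]
    have l2' : ∀ (P : Polynomial K), ℓ (2 * P) = 2 * ℓ P := by
      intro P
      have := lin_nat ℓ 2 P
      push_cast at this
      exact this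
    have D0 : ∀ a, a + 2 ≤ 3 → ℓ (Polynomial.X ^ (a + 4)) + ℓ (Polynomial.X ^ (a + 3))
        + ℓ (Polynomial.X ^ (a + 6)) = 0 := by
      intro a ha
      have := hℓ 0 a ha
      rw [F3_0, cv0, cv1, cv3, show (Polynomial.X ^ a * (-(Polynomial.X ^ 3 * Polynomial.X)
        - 1 * Polynomial.X ^ 3 - (Polynomial.X ^ 3) ^ 2) : Polynomial K)
        = -(Polynomial.X ^ (a + 4) + Polynomial.X ^ (a + 3) + Polynomial.X ^ (a + 6)) by ring,
        map_neg, map_add, map_add, neg_eq_zero] at this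
      exact this
    have D0' : ℓ (Polynomial.X ^ 3) + ℓ (Polynomial.X ^ 2) + ℓ (Polynomial.X ^ 5) = 0 := by
      have := hℓ' (-(Polynomial.X ^ 3 + Polynomial.X ^ 2 + Polynomial.X ^ 5)) (by
        rw [F3_0, cv0, cv1, cv3]; ring)
      rw [map_neg, map_add, map_add, neg_eq_zero] at this
      exact this
    have D1 : ∀ a, a + 2 ≤ 3 → ℓ (Polynomial.X ^ (a + 3)) = 0 := by
      intro a ha
      have := hℓ 1 a ha
      rw [F3_1, cv0, cv1, cv2, cv3, show (Polynomial.X ^ a * (2 * Polynomial.X * Polynomial.X ^ 2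
        - 1 * Polynomial.X ^ 3) : Polynomial K) = Polynomial.X ^ (a + 3) by ring] at this
      exact this
    have D2 : ∀ a, a + 2 ≤ 3 → ℓ (Polynomial.X ^ (a + 2)) = 0 := by
      intro a ha
      have := hℓ 2 a ha
      rw [F3_2, cv1, ← pow_add] at this
      exact this
    have D3 : ∀ a, a + 2 ≤ 3 → ℓ (Polynomial.X ^ (a + 1)) + 2 * ℓ (Polynomial.X ^ a)
        + 2 * ℓ (Polynomial.X ^ (a + 3)) = 0 := by
      intro a ha
      have := hℓ 3 a ha
      rw [F3_3, cv0, cv1, cv3, show (Polynomial.X ^ a * (-(1 * Polynomial.X) - 2 * 1 ^ 2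
        - 2 * 1 * Polynomial.X ^ 3) : Polynomial K)
        = -(Polynomial.X ^ (a + 1) + 2 * Polynomial.X ^ a + 2 * Polynomial.X ^ (a + 3)) by ring,
        map_neg, map_add, map_add, l2', l2', neg_eq_zero] at this
      exact this
    have t2 := D2 0 (by omega)
    have t3 := D1 0 (by omega)
    have t4 := D1 1 (by omega)
    have t1 : ℓ (Polynomial.X ^ 1) = 0 := by
      have := D3 1 (by omega)
      norm_num at this t2 t3 t4
      rw [t2, t4] at this
      simpa [two] using this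
    have t0 : ℓ (Polynomial.X ^ 0) = 0 := by
      have := D3 0 (by omega)
      norm_num at this t2 t3 t4 t1
      rw [t1, t3] at this
      simpa [two] using this
    have t5 : ℓ (Polynomial.X ^ 5) = 0 := by
      norm_num at t2 t3
      rw [t2, t3] at D0'
      simpa using D0'
    have t6 : ℓ (Polynomial.X ^ 6) = 0 := by
      have := D0 0 (by omega)
      norm_num at this t3 t4
      rw [t3, t4] at this
      simpa using this
    have t7 : ℓ (Polynomial.X ^ 7) = 0 := by
      have := D0 1 (by omega)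
      norm_num at this t4 t5
      rw [t4, t5] at this
      simpa using this
    intro E hE
    have : E = 0 ∨ E = 1 ∨ E = 2 ∨ E = 3 ∨ E = 4 ∨ E = 5 ∨ E = 6 ∨ E = 7 := by omega
    rcases this with rfl | rfl | rfl | rfl | rfl | rfl | rfl | rfl
    exacts [t0, t1, t2, t3, t4, t5, t6, t7]
  hyp := by
    intro _
    refine ⟨2, fun x e2 hx hF => ?_⟩
    have h0 := hx 0 (by decide)
    have h1 := hx 1 (by decide)
    have h3 := hx 3 (by decide)
    rw [F3_0] at h0
    rw [F3_1] at h1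
    rw [F3_3] at h3
    have two : (2 : K) ≠ 0 := by
      intro h
      have := three_eq_zero' (A := K)
      exact one_ne_zero (α := K) (by linear_combination this - h)
    have h03 : x 0 * x 3 = 0 := by
      rw [e2] at h1
      linear_combination -h1
    have e1 : x 1 = 0 := by
      simp only [F3, map_add, map_sub, map_mul, map_pow, aeval_X, e2, map_ofNat] at hF
      have : 2 * x 1 ^ 3 = 0 := by linear_combination hF + (x 1 + 2 * x 0 + x 3) * h03
      exact pow_eq_zero_iff three_ne_zero |>.1 ((mul_eq_zero.1 this).resolve_left two)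
    have e0 : x 0 = 0 := by
      have : 2 * x 0 ^ 2 = 0 := by rw [e1] at h3; linear_combination -h3 - 2 * h03
      exact pow_eq_zero_iff two_ne_zero |>.1 ((mul_eq_zero.1 this).resolve_left two)
    have e3 : x 3 = 0 := by
      have : x 3 ^ 2 = 0 := by rw [e1] at h0; linear_combination -h0 - h03
      exact pow_eq_zero_iff two_ne_zero |>.1 this
    funext i
    fin_cases i
    · exact e0
    · exact e1
    · exact e2
    · exact e3

lemma F4_hom : F4.IsHomogeneous 4 := by
  have hX : ∀ (i : Fin (4 + 1)) (k : ℕ),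
      (X i ^ k : MvPolynomial (Fin (4 + 1)) (ZMod 2)).IsHomogeneous k :=
    fun i k => isHomogeneous_X_pow _ _
  have hX1 : ∀ (i : Fin (4 + 1)),
      (X i : MvPolynomial (Fin (4 + 1)) (ZMod 2)).IsHomogeneous 1 :=
    fun i => isHomogeneous_X _ _
  have t1 := homd' ((hX 1 3).mul ((hX1 0).add (hX1 4))) (show 3 + 1 = 4 by norm_num)
  have t2 := homd' ((hX 2 3).mul (hX1 1)) (show 3 + 1 = 4 by norm_num)
  have t3 := homd' ((hX 0 3).mul (hX1 3)) (show 3 + 1 = 4 by norm_num)
  have t4 := homd' ((hX1 0).mul (hX 4 3)) (show 1 + 3 = 4 by norm_num)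
  have t5 := hX 3 4
  rw [F4]
  exact (((t1.add t2).add t3).add t4).add t5

lemma F4_smooth {K : Type*} [Field K] [Algebra (ZMod 2) K] (x : Fin (4 + 1) → K)
    (hx : ∀ i, aeval x (pderiv i F4) = 0) (hF : aeval x F4 = 0) : x = 0 := by
  have h0 := hx 0
  have h1 := hx 1
  have h3 := hx 3
  have h4 := hx 4
  rw [F4_0] at h0
  rw [F4_1] at h1
  rw [F4_3] at h3
  rw [F4_4] at h4
  have e0 : x 0 = 0 := pow_eq_zero_iff three_ne_zero |>.1 h3
  have e1 : x 1 = 0 := by
    rw [e0] at h4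
    have : x 1 ^ 3 = 0 := by linear_combination h4
    exact pow_eq_zero_iff three_ne_zero |>.1 this
  have e4 : x 4 = 0 := by
    rw [e0, e1] at h0
    have : x 4 ^ 3 = 0 := by linear_combination h0
    exact pow_eq_zero_iff three_ne_zero |>.1 this
  have e2 : x 2 = 0 := by
    rw [e1] at h1
    have : x 2 ^ 3 = 0 := by linear_combination h1
    exact pow_eq_zero_iff three_ne_zero |>.1 this
  have e3 : x 3 = 0 := by
    simp only [F4, map_add, map_mul, map_pow, aeval_X, e0, e1, e4] at hF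
    have : x 3 ^ 4 = 0 := by linear_combination hF
    exact pow_eq_zero_iff four_ne_zero |>.1 this
  funext i
  fin_cases i
  · exact e0
  · exact e1
  · exact e2
  · exact e3
  · exact e4

lemma F4_onX {K : Type*} [Field K] [Algebra (ZMod 2) K] : aeval (ratNormal K 4 4) F4 = 0 := by
  simp [F4, ratNormal]
  have := two_eq_zero' (A := MvPolynomial (Fin 2) K)
  linear_combination ((X 0 ^ 13 * X 1 ^ 3 + X 0 ^ 9 * X 1 ^ 7 + X 0 ^ 4 * X 1 ^ 12) :
    MvPolynomial (Fin 2) K) * this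

lemma F4_span {K : Type*} [Field K] [Algebra (ZMod 2) K] (ℓ : Polynomial K →ₗ[K] K)
    (hℓ : ∀ i, ∀ x : ℕ, x + 2 ≤ 4 → ℓ (Polynomial.X ^ x * aeval (cv K 4 4) (pderiv i F4)) = 0)
    (hℓ' : ∀ Q, aeval (cv K 4 4) (pderiv 0 F4) = Polynomial.X * Q → ℓ Q = 0) :
    ∀ E : ℕ, E + 2 ≤ 4 * 4 → ℓ (Polynomial.X ^ E) = 0 := by
  have cv0 : cv K 4 4 0 = 1 := by simp [cv]
  have cv1 : cv K 4 4 1 = Polynomial.X := by simp [cv]
  have cv2 : cv K 4 4 2 = Polynomial.X ^ 2 := by simp [cv]
  have cv3 : cv K 4 4 3 = Polynomial.X ^ 3 := by simp [cv]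
  have cv4 : cv K 4 4 4 = Polynomial.X ^ 4 := by simp [cv]
  have two := two_eq_zero' (A := Polynomial K)
  have D0 : ∀ a, a + 2 ≤ 4 → ℓ (Polynomial.X ^ (a + 12)) = 0 := by
    intro a ha
    have := hℓ 0 a ha
    rw [F4_0, cv0, cv1, cv3, cv4] at this
    rw [← this]
    congr 1
    linear_combination (-(Polynomial.X ^ (a + 3)) : Polynomial K) * two
  have D0' : ℓ (Polynomial.X ^ 11) = 0 := by
    apply hℓ'
    rw [F4_0, cv0, cv1, cv3, cv4]
    linear_combination (Polynomial.X ^ 3 : Polynomial K) * two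
  have D1 : ∀ a, a + 2 ≤ 4 → ℓ (Polynomial.X ^ (a + 2)) = 0 := by
    intro a ha
    have := hℓ 1 a ha
    rw [F4_1, cv0, cv1, cv2, cv4] at this
    rw [← this]
    congr 1
    linear_combination (-(Polynomial.X ^ (a + 6)) : Polynomial K) * two
  have D2 : ∀ a, a + 2 ≤ 4 → ℓ (Polynomial.X ^ (a + 5)) = 0 := by
    intro a ha
    have := hℓ 2 a ha
    rw [F4_2, cv1, cv2] at this
    rw [← this]
    congr 1
    ring
  have D3 : ∀ a, a + 2 ≤ 4 → ℓ (Polynomial.X ^ a) = 0 := by
    intro a ha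
    have := hℓ 3 a ha
    rw [F4_3, cv0] at this
    rw [← this]
    congr 1
    ring
  have D4 : ∀ a, a + 2 ≤ 4 → ℓ (Polynomial.X ^ (a + 3)) + ℓ (Polynomial.X ^ (a + 8)) = 0 := by
    intro a ha
    have := hℓ 4 a ha
    rw [F4_4, cv0, cv1, cv4] at this
    rw [← this, ← map_add]
    congr 1
    ring
  have t0 := D3 0 (by omega)
  have t1 := D3 1 (by omega)
  have t2 := D3 2 (by omega)
  have t3 := D1 1 (by omega)
  have t4 := D1 2 (by omega)
  have t5 := D2 0 (by omega)
  have t6 := D2 1 (by omega)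
  have t7 := D2 2 (by omega)
  have t8 := D4 0 (by omega)
  have t9 := D4 1 (by omega)
  have t10 := D4 2 (by omega)
  have t12 := D0 0 (by omega)
  have t13 := D0 1 (by omega)
  have t14 := D0 2 (by omega)
  norm_num at t0 t1 t2 t3 t4 t5 t6 t7 t8 t9 t10 t12 t13 t14
  rw [t3, zero_add] at t8
  rw [t4, zero_add] at t9
  rw [t5, zero_add] at t10
  intro E hE
  have : E = 0 ∨ E = 1 ∨ E = 2 ∨ E = 3 ∨ E = 4 ∨ E = 5 ∨ E = 6 ∨ E = 7 ∨ E = 8 ∨ E = 9
    ∨ E = 10 ∨ E = 11 ∨ E = 12 ∨ E = 13 ∨ E = 14 := by omega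
  rcases this with rfl | rfl | rfl | rfl | rfl | rfl | rfl | rfl | rfl | rfl | rfl | rfl | rfl
    | rfl | rfl
  · simpa using t0
  · simpa using t1
  exacts [t2, t3, t4, t5, t6, t7, t8, t9, t10, D0', t12, t13, t14]

lemma F4_hyp {K : Type*} [Field K] [Algebra (ZMod 2) K] (x : Fin (4 + 1) → K) (e4 : x 4 = 0)
    (hx : ∀ i, i ≠ 4 → aeval x (pderiv i F4) = 0) (hF : aeval x F4 = 0) : x = 0 := by
  have h0 := hx 0 (by decide)
  have h1 := hx 1 (by decide)
  have h3 := hx 3 (by decide)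
  rw [F4_0] at h0
  rw [F4_1] at h1
  rw [F4_3] at h3
  have e0 : x 0 = 0 := pow_eq_zero_iff three_ne_zero |>.1 h3
  have e1 : x 1 = 0 := by
    rw [e0, e4] at h0
    have : x 1 ^ 3 = 0 := by linear_combination h0
    exact pow_eq_zero_iff three_ne_zero |>.1 this
  have e2 : x 2 = 0 := by
    rw [e1] at h1
    have : x 2 ^ 3 = 0 := by linear_combination h1
    exact pow_eq_zero_iff three_ne_zero |>.1 this
  have e3 : x 3 = 0 := by
    simp only [F4, map_add, map_mul, map_pow, aeval_X, e0, e1, e4] at hF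
    have : x 3 ^ 4 = 0 := by linear_combination hF
    exact pow_eq_zero_iff four_ne_zero |>.1 this
  funext i
  fin_cases i
  · exact e0
  · exact e1
  · exact e2
  · exact e3
  · exact e4


theorem good_F4 {K : Type*} [Field K] [Algebra (ZMod 2) K] : Good K 2 4 4 F4 where
  hom := F4_hom
  smooth := F4_smooth
  onX := F4_onX
  span := F4_span
  hyp := fun _ => ⟨4, F4_hyp⟩

end U199.SRC
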