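import Mathlib
import Pool.Agent.U199.SRC.Ample
import Pool.Agent.U199.SRC.FamA
import Pool.Agent.U199.SRC.FamB
import Pool.Agent.U199.SRC.FamC
import Pool.Agent.U199.SRC.Small
import Pool.Agent.U199.SRC.Ext

/-! Assembling the cases. -/

set_option autoImplicit false

namespace U199.SRC

open MvPolynomial Finset

section

variable {p : ℕ} [Fact p.Prime] {K : Type*} [Field K] [Algebra (ZMod p) K]

/-- degree one -/
theorem good_one {n : ℕ} (hn : 2 ≤ n) :
    Good K p n 1 (X (Fin.last n) : MvPolynomial (Fin (n + 1)) (ZMod p)) where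
  hom := isHomogeneous_X _ _
  smooth := by
    intro x hx _
    have := hx (Fin.last n)
    rw [pderiv_X_self, map_one] at this
    exact absurd this one_ne_zero
  onX := by
    rw [aeval_X, ratNormal, if_neg]
    simp; omega
  span := by
    intro ℓ _ _ E hE
    omega
  hyp := fun h => absurd (Nat.dvd_one.1 h) (Fact.out : p.Prime).ne_one

/-- `d = n` -/
theorem good_base {n : ℕ} (hn : 2 ≤ n) :
    ∃ F : MvPolynomial (Fin (n + 1)) (ZMod p), Good K p n n F := by
  have hpp : p.Prime := Fact.out
  have hc : CharP K p := charP_of_injective_algebraMap (algebraMap (ZMod p) K).injective p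
  by_cases h1 : p ∣ n
  · -- `p ∣ n`
    obtain h | h | h : n = 2 ∨ n = 3 ∨ 4 ≤ n := by omega
    · subst h
      have : p = 2 := (Nat.prime_dvd_prime_iff_eq hpp Nat.prime_two).1 h1
      subst this
      exact ⟨_, good_F2⟩
    · subst h
      have : p = 3 := (Nat.prime_dvd_prime_iff_eq hpp Nat.prime_three).1 h1
      subst this
      exact ⟨_, good_F3⟩
    · obtain ⟨m, rfl⟩ : ∃ m, n = m + 3 := ⟨n - 3, by omega⟩
      have hK : (m : K) + 3 = 0 := by
        have := (CharP.cast_eq_zero_iff K p (m + 3)).2 h1
        push_cast at this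
        exact this
      rcases eq_or_ne p 2 with hp | hp
      · subst hp
        rcases eq_or_ne m 1 with hm | hm
        · subst hm
          exact ⟨_, good_F4⟩
        · refine ⟨_, good_FC m 1 (by omega) hK (Or.inr ⟨?_, ?_, by omega⟩)⟩
          · simp
          · exact two_eq_zero'
      · refine ⟨_, good_FC m 0 (by omega) hK (Or.inl ⟨by simp, ?_⟩)⟩
        intro h2
        have : ((2 : ℕ) : K) = 0 := by exact_mod_cast h2
        exact hp ((Nat.prime_dvd_prime_iff_eq hpp Nat.prime_two).1
          ((CharP.cast_eq_zero_iff K p 2).1 this))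
  · by_cases h2 : p ∣ n - 1
    · have : p ≤ n - 1 := Nat.le_of_dvd (by omega) h2
      have := hpp.two_le
      obtain ⟨m, rfl⟩ : ∃ m, n = m + 3 := ⟨n - 3, by omega⟩
      have hK : (m : K) + 2 = 0 := by
        have := (CharP.cast_eq_zero_iff K p (m + 2)).2 (by simpa using h2)
        push_cast at this
        exact this
      rcases eq_or_ne p 3 with hp | hp
      · subst hp
        have h3 := three_eq_zero' (A := K)
        refine ⟨_, good_FB m (-1) hK (by simp) ?_ h1⟩
        intro h
        push_cast at h
        exact one_ne_zero (α := K) (by linear_combination h + 2 * h3)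
      · refine ⟨_, good_FB m 1 hK (by simp) ?_ h1⟩
        intro h
        push_cast at h
        have : ((3 : ℕ) : K) = 0 := by
          push_cast
          linear_combination (-1 : K) * h
        exact hp ((Nat.prime_dvd_prime_iff_eq hpp Nat.prime_three).1
          ((CharP.cast_eq_zero_iff K p 3).1 this))
    · obtain ⟨m, rfl⟩ : ∃ m, n = m + 2 := ⟨n - 2, by omega⟩
      refine ⟨_, good_FA m ?_ ?_ h1⟩
      · intro h
        exact h1 ((CharP.cast_eq_zero_iff K p (m + 2)).1 (by push_cast; exact h))
      · intro h
        exact h2 ((CharP.cast_eq_zero_iff K p (m + 1)).1 (by push_cast; exact h))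

theorem good_all {n d : ℕ} (hn : 2 ≤ n) (hd : 1 ≤ d) (hdn : d ≤ n) :
    ∃ F : MvPolynomial (Fin (n + 1)) (ZMod p), Good K p n d F := by
  rcases eq_or_ne d 1 with h | h
  · subst h
    exact ⟨_, good_one hn⟩
  · induction n, hdn using Nat.le_induction with
    | base => exact good_base hn
    | succ n hdn ih =>
      obtain ⟨F, hF⟩ := ih (by omega)
      exact good_ext (by omega) hdn hF

end

end U199.SRC
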